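import Pool.Agent.Work.MP_0863b8_nt.Bd.B03

set_option autoImplicit false

namespace Pool.Agent.MP_0863b8.G

open MeasureTheory Filter

theorem bcg_cs (S : Finset ℕ) (a : ℕ → ℝ) (E : ℕ → Set ℝ) (hE : ∀ n, MeasurableSet (E n))
    (hE1 : ∀ n, E n ⊆ Set.Ico 0 1) (G : Set ℝ) (hG : MeasurableSet G) (hG1 : volume G ≠ ⊤)
    (lam : ℝ) :
    2 * lam * ∑ v ∈ S, a v * (volume (E v ∩ G)).toReal ≤
      lam ^ 2 * ∑ v ∈ S, ∑ w ∈ S, a v * a w * (volume (E v ∩ E w)).toReal +
        (volume G).toReal := by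
  have hfin : ∀ n, volume (E n) ≠ ⊤ := by
    intro n
    refine ne_top_of_le_ne_top ?_ (measure_mono (hE1 n))
    simp
  have hint : ∀ s : Set ℝ, MeasurableSet s → volume s ≠ ⊤ →
      Integrable (s.indicator (1 : ℝ → ℝ)) volume := by
    intro s hs hs1
    rw [integrable_indicator_iff hs]
    exact integrableOn_const hs1
  have key : 0 ≤ ∫ x : ℝ, (lam * ∑ v ∈ S, a v * (E v).indicator (1 : ℝ → ℝ) x -
      G.indicator (1 : ℝ → ℝ) x) ^ 2 := integral_nonneg fun x => sq_nonneg _
  have hexp : (fun x : ℝ => (lam * ∑ v ∈ S, a v * (E v).indicator (1 : ℝ → ℝ) x -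
      G.indicator (1 : ℝ → ℝ) x) ^ 2) = fun x =>
      (lam ^ 2 * ∑ v ∈ S, ∑ w ∈ S, a v * a w * (E v ∩ E w).indicator (1 : ℝ → ℝ) x -
        2 * lam * ∑ v ∈ S, a v * (E v ∩ G).indicator (1 : ℝ → ℝ) x) +
        G.indicator (1 : ℝ → ℝ) x := by
    funext x
    simp only [Set.inter_indicator_one, Pi.mul_apply]
    have h1 : G.indicator (1 : ℝ → ℝ) x * G.indicator (1 : ℝ → ℝ) x =
        G.indicator (1 : ℝ → ℝ) x := by
      by_cases hx : x ∈ G <;> simp [hx]
    have h2 : ∑ v ∈ S, a v * ((E v).indicator (1 : ℝ → ℝ) x * G.indicator (1 : ℝ → ℝ) x) =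
        (∑ v ∈ S, a v * (E v).indicator (1 : ℝ → ℝ) x) * G.indicator (1 : ℝ → ℝ) x := by
      rw [Finset.sum_mul]
      exact Finset.sum_congr rfl fun v _ => by ring
    have h3 : ∑ v ∈ S, ∑ w ∈ S, a v * a w *
        ((E v).indicator (1 : ℝ → ℝ) x * (E w).indicator (1 : ℝ → ℝ) x) =
        (∑ v ∈ S, a v * (E v).indicator (1 : ℝ → ℝ) x) *
          ∑ v ∈ S, a v * (E v).indicator (1 : ℝ → ℝ) x := by
      rw [Finset.sum_mul_sum]
      exact Finset.sum_congr rfl fun v _ => Finset.sum_congr rfl fun w _ => by ring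
    rw [h2, h3]
    linear_combination h1
  rw [hexp] at key
  have i1 : ∀ v w, Integrable ((E v ∩ E w).indicator (1 : ℝ → ℝ)) volume := fun v w =>
    hint _ ((hE v).inter (hE w)) (ne_top_of_le_ne_top (hfin v) (measure_mono Set.inter_subset_left))
  have i2 : ∀ v, Integrable ((E v ∩ G).indicator (1 : ℝ → ℝ)) volume := fun v =>
    hint _ ((hE v).inter hG) (ne_top_of_le_ne_top (hfin v) (measure_mono Set.inter_subset_left))
  rw [integral_add, integral_sub, integral_const_mul, integral_const_mul,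
    integral_finsetSum, integral_finsetSum, integral_indicator_one hG] at key
  · have e1 : ∀ v ∈ S, ∫ x, ∑ w ∈ S, a v * a w * (E v ∩ E w).indicator (1 : ℝ → ℝ) x =
        ∑ w ∈ S, a v * a w * (volume (E v ∩ E w)).toReal := by
      intro v _
      rw [integral_finsetSum _ fun w _ => (i1 v w).const_mul _]
      exact Finset.sum_congr rfl fun w _ => by
        rw [integral_const_mul, integral_indicator_one ((hE v).inter (hE w))]; rfl
    have e2 : ∀ v ∈ S, ∫ x, a v * (E v ∩ G).indicator (1 : ℝ → ℝ) x =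
        a v * (volume (E v ∩ G)).toReal := fun v _ => by
          rw [integral_const_mul, integral_indicator_one ((hE v).inter hG)]; rfl
    rw [Finset.sum_congr rfl e1, Finset.sum_congr rfl e2] at key
    change 0 ≤ _ - _ + (volume G).toReal at key
    linarith
  · exact fun v _ => (i2 v).const_mul _
  · exact fun v _ => integrable_finsetSum _ fun w _ => (i1 v w).const_mul _
  · exact (integrable_finsetSum _ fun v _ =>
      integrable_finsetSum _ fun w _ => (i1 v w).const_mul _).const_mul _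
  · exact (integrable_finsetSum _ fun v _ => (i2 v).const_mul _).const_mul _
  · exact ((integrable_finsetSum _ fun v _ =>
      integrable_finsetSum _ fun w _ => (i1 v w).const_mul _).const_mul _).sub
      ((integrable_finsetSum _ fun v _ => (i2 v).const_mul _).const_mul _)
  · exact hint G hG hG1

theorem bcG : BCG := by
  intro S a E C c hc ha hE hE1 hC hlow
  have hfin : ∀ n, volume (E n) ≠ ⊤ := by
    intro n
    refine ne_top_of_le_ne_top ?_ (measure_mono (hE1 n))
    simp
  have hC0 : 0 ≤ C := le_trans (Finset.sum_nonneg fun v _ => Finset.sum_nonneg fun w _ =>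
    mul_nonneg (mul_nonneg (ha v) (ha w)) ENNReal.toReal_nonneg) (hC 0)
  let Z : ℕ → Set ℝ := fun T => Set.Ico 0 1 ∩ ⋂ t, ⋂ (_ : T ≤ t), ⋂ v, ⋂ (_ : v ∈ S t), (E v)ᶜ
  have hZm : ∀ T, MeasurableSet (Z T) := by
    intro T
    refine measurableSet_Ico.inter ?_
    refine MeasurableSet.iInter fun t => MeasurableSet.iInter fun _ => ?_
    exact MeasurableSet.iInter fun v => MeasurableSet.iInter fun _ => (hE v).compl
  have hZmem : ∀ T x, x ∈ Z T ↔ x ∈ Set.Ico (0:ℝ) 1 ∧ ∀ t, T ≤ t → ∀ v ∈ S t, x ∉ E v := by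
    intro T x
    simp [Z]
  have hZ0 : ∀ T, volume (Z T) = 0 := by
    intro T
    by_contra hne
    obtain ⟨K, hKZ, hKc, hKpos⟩ := (hZm T).exists_lt_isCompact (μ := volume)
      (pos_iff_ne_zero.2 hne)
    have hK1 : K ⊆ Set.Ico 0 1 := fun x hx => ((hZmem T x).1 (hKZ hx)).1
    have hKfin : volume K ≠ ⊤ := hKc.measure_lt_top.ne
    set κ : ℝ := (volume K).toReal with hκ
    have hκpos : 0 < κ := ENNReal.toReal_pos hKpos.ne' hKfin
    set lam : ℝ := c * κ / (C + 1) with hlam
    have hlampos : 0 < lam := by positivity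
    set ε : ℝ := lam * (c * κ) / 2 with hε
    have hεpos : 0 < ε := by positivity
    obtain ⟨U, hKU, hUo, hUlt⟩ := K.exists_isOpen_lt_add (μ := volume) hKfin
      (ENNReal.ofReal_pos.2 hεpos).ne'
    have hUK : volume (U \ K) < ENNReal.ofReal ε :=
      measure_sdiff_lt_of_lt_add hKc.measurableSet.nullMeasurableSet hKU hKfin hUlt
    obtain ⟨d, hd, hdU⟩ := hKc.exists_thickening_subset_open hUo hKU
    obtain ⟨M, hM⟩ := exists_nat_gt (1 / d)
    have hMpos : (0 : ℝ) < M := lt_trans (by positivity) hM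
    have hMd : 1 / (M : ℝ) < d := by
      rw [div_lt_iff₀ hMpos]
      rw [div_lt_iff₀ hd] at hM
      linarith
    classical
    let Ic : ℕ → Set ℝ := fun j => Set.Ico ((j : ℝ) / M) (((j : ℝ) + 1) / M)
    let Io : ℕ → Set ℝ := fun j => Set.Ioo ((j : ℝ) / M) (((j : ℝ) + 1) / M)
    let J : Finset ℕ := (Finset.range M).filter fun j => (Ic j ∩ K).Nonempty
    let F : Set ℝ := ⋃ j ∈ J, Ic j
    have hFm : MeasurableSet F := Finset.measurableSet_biUnion _ fun j _ => measurableSet_Ico
    have hKF : K ⊆ F := by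
      intro x hx
      have hx1 := hK1 hx
      have h0 : 0 ≤ (M : ℝ) * x := mul_nonneg hMpos.le hx1.1
      have hxj : x ∈ Ic ⌊(M : ℝ) * x⌋₊ := by
        constructor
        · rw [div_le_iff₀ hMpos, mul_comm x]
          exact Nat.floor_le h0
        · rw [lt_div_iff₀ hMpos, mul_comm x]
          exact Nat.lt_floor_add_one _
      refine Set.mem_biUnion (x := ⌊(M : ℝ) * x⌋₊) ?_ hxj
      rw [Finset.mem_coe, Finset.mem_filter, Finset.mem_range]
      refine ⟨?_, x, hxj, hx⟩
      rw [Nat.floor_lt h0]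
      nlinarith [hx1.2]
    have hFU : F ⊆ U := by
      intro y hy
      obtain ⟨j, hj, hyj⟩ := Set.mem_iUnion₂.1 hy
      obtain ⟨x, hxj, hxK⟩ := (Finset.mem_filter.1 hj).2
      apply hdU
      rw [Metric.mem_thickening_iff]
      refine ⟨x, hxK, lt_trans ?_ hMd⟩
      rw [Real.dist_eq, abs_lt]
      have e : ((j : ℝ) + 1) / M = (j : ℝ) / M + 1 / M := by ring
      obtain ⟨h1, h2⟩ := hyj
      obtain ⟨h3, h4⟩ := hxj
      rw [e] at h2 h4
      constructor <;> linarith
    have hvolI : ∀ j, volume (Ic j) = ENNReal.ofReal (1 / M) := by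
      intro j
      change volume (Set.Ico _ _) = _
      rw [Real.volume_Ico]
      congr 1
      ring
    have hκJ : κ ≤ (J.card : ℝ) * (1 / M) := by
      have h1 : volume K ≤ ∑ j ∈ J, volume (Ic j) :=
        (measure_mono hKF).trans (measure_biUnion_finset_le _ _)
      simp_rw [hvolI] at h1
      rw [Finset.sum_const, nsmul_eq_mul] at h1
      have h2 := ENNReal.toReal_mono (by finiteness) h1
      rwa [ENNReal.toReal_mul, ENNReal.toReal_natCast, ENNReal.toReal_ofReal (by positivity)] at h2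
    have hev : ∀ᶠ t in atTop, ∀ j ∈ J, c * (1 / M) ≤
        ∑ v ∈ S t, a v * (volume (E v ∩ Io j)).toReal := by
      rw [Filter.eventually_all_finset]
      intro j hj
      have hjM : j < M := Finset.mem_range.1 (Finset.mem_filter.1 hj).1
      have h1 : (j : ℝ) / M < ((j : ℝ) + 1) / M := by
        apply div_lt_div_of_pos_right _ hMpos
        linarith
      have h2 : ((j : ℝ) + 1) / M ≤ 1 := by
        rw [div_le_one hMpos]
        exact_mod_cast hjM
      filter_upwards [hlow _ _ (by positivity) h1 h2] with t ht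
      have e : ((j : ℝ) + 1) / M - (j : ℝ) / M = 1 / M := by ring
      rwa [e] at ht
    obtain ⟨t, ht, htT⟩ := (hev.and (eventually_ge_atTop T)).exists
    have hdisj : ∀ v, ∑ j ∈ J, (volume (E v ∩ Io j)).toReal ≤ (volume (E v ∩ F)).toReal := by
      intro v
      rw [← ENNReal.toReal_sum fun j _ =>
        ne_top_of_le_ne_top (hfin v) (measure_mono Set.inter_subset_left)]
      refine ENNReal.toReal_mono
        (ne_top_of_le_ne_top (hfin v) (measure_mono Set.inter_subset_left)) ?_
      rw [← measure_biUnion_finset]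
      · refine measure_mono ?_
        refine Set.iUnion₂_subset fun j hj => ?_
        refine Set.inter_subset_inter_right _ ?_
        exact Set.Ioo_subset_Ico_self.trans (Set.subset_biUnion_of_mem (u := Ic) hj)
      · intro i _ j _ hij
        refine Set.disjoint_left.2 fun x hxi hxj => hij ?_
        obtain ⟨_, h1, h2⟩ := hxi
        obtain ⟨_, h3, h4⟩ := hxj
        have h5 : (i : ℝ) / M < ((j : ℝ) + 1) / M := h1.trans h4
        have h6 : (j : ℝ) / M < ((i : ℝ) + 1) / M := h3.trans h2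
        rw [div_lt_div_iff_of_pos_right hMpos] at h5 h6
        have h7 : i < j + 1 := by exact_mod_cast h5
        have h8 : j < i + 1 := by exact_mod_cast h6
        omega
      · exact fun j _ => (hE v).inter measurableSet_Ioo
    have hsum : c * κ ≤ ∑ v ∈ S t, a v * (volume (E v ∩ (F \ K))).toReal := by
      have h1 : c * κ ≤ ∑ j ∈ J, ∑ v ∈ S t, a v * (volume (E v ∩ Io j)).toReal := by
        calc c * κ ≤ c * ((J.card : ℝ) * (1 / M)) := mul_le_mul_of_nonneg_left hκJ hc.le
          _ = ∑ j ∈ J, c * (1 / M) := by rw [Finset.sum_const, nsmul_eq_mul]; ring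
          _ ≤ _ := Finset.sum_le_sum ht
      rw [Finset.sum_comm] at h1
      refine h1.trans (Finset.sum_le_sum fun v hv => ?_)
      rw [← Finset.mul_sum]
      refine mul_le_mul_of_nonneg_left ((hdisj v).trans (le_of_eq ?_)) (ha v)
      congr 2
      ext x
      constructor
      · rintro ⟨hx1, hx2⟩
        exact ⟨hx1, hx2, fun hxK => ((hZmem T x).1 (hKZ hxK)).2 t htT v hv hx1⟩
      · rintro ⟨hx1, hx2, _⟩
        exact ⟨hx1, hx2⟩
    have hG : volume (F \ K) ≤ ENNReal.ofReal ε :=
      (measure_mono (Set.sdiff_subset_sdiff_left hFU)).trans hUK.le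
    have hcs := bcg_cs (S t) a E hE hE1 (F \ K) (hFm.diff hKc.measurableSet)
      (ne_top_of_le_ne_top ENNReal.ofReal_ne_top hG) lam
    have hG' : (volume (F \ K)).toReal ≤ ε := by
      have := ENNReal.toReal_mono ENNReal.ofReal_ne_top hG
      rwa [ENNReal.toReal_ofReal hεpos.le] at this
    have h1 : 2 * lam * (c * κ) ≤ lam ^ 2 * C + ε := by
      refine le_trans (mul_le_mul_of_nonneg_left hsum (by positivity)) (hcs.trans ?_)
      exact add_le_add (mul_le_mul_of_nonneg_left (hC t) (by positivity)) hG'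
    have h2 : lam * (C + 1) = c * κ := by
      rw [hlam]
      field_simp
    have h3 : lam ^ 2 * C ≤ lam * (c * κ) := by
      rw [← h2]
      nlinarith [sq_nonneg lam]
    have h4 : 0 < lam * (c * κ) := by positivity
    rw [hε] at h1
    nlinarith
  rw [ae_restrict_iff' measurableSet_Ico]
  have hnull : volume (⋃ T, Z T) = 0 := measure_iUnion_null hZ0
  rw [ae_iff]
  refine measure_mono_null ?_ hnull
  intro x hx
  simp only [Set.mem_ofPred_eq, Classical.not_imp, Filter.not_frequently, not_exists, not_and] at hx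
  obtain ⟨hx1, hx2⟩ := hx
  obtain ⟨T, hT⟩ := Filter.eventually_atTop.1 hx2
  exact Set.mem_iUnion.2 ⟨T, (hZmem T x).2 ⟨hx1, fun t ht v hv => hT t ht v hv⟩⟩

end Pool.Agent.MP_0863b8.G
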