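import Pool.Agent.Work.MP_0863b8_nt.Bd.B03
import Pool.Agent.Work.MP_0863b8_nt.F.Second

/-!
MP_0863b8_nt, item G10: the deep pairs.
-/

set_option autoImplicit false

namespace Pool.Agent.MP_0863b8.G

open MeasureTheory Filter
open F (ms en share lv)

theorem deep_aux (ε σ : ℝ) (hε : 0 ≤ ε) (hσ : 1 ≤ σ) :
    3 ^ ε * σ ^ (-ε) * (σ + 1) ^ ε ≤ 6 ^ ε := by
  have h0 : 0 < σ := by linarith
  have h1 : (σ + 1) ^ ε ≤ (2 * σ) ^ ε := Real.rpow_le_rpow (by linarith) (by linarith) hε
  have h2 : (0:ℝ) ≤ 3 ^ ε * σ ^ (-ε) := by positivity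
  calc 3 ^ ε * σ ^ (-ε) * (σ + 1) ^ ε ≤ 3 ^ ε * σ ^ (-ε) * (2 * σ) ^ ε :=
        mul_le_mul_of_nonneg_left h1 h2
    _ = (3 ^ ε * 2 ^ ε) * (σ ^ (-ε) * σ ^ ε) := by
        rw [Real.mul_rpow (by norm_num) h0.le]
        ring
    _ = 6 ^ ε := by
        rw [← Real.rpow_add h0, neg_add_cancel, Real.rpow_zero, mul_one,
          ← Real.mul_rpow (by norm_num) (by norm_num)]
        norm_num

theorem deep_clog (b : ℕ) (hb0 : 0 < b) : 2 ^ (Nat.clog 2 b) < 2 * b := by
  rcases Nat.eq_or_lt_of_le (show 1 ≤ b from hb0) with h1 | h1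
  · rw [← h1]
    simp
  · have := Nat.pow_pred_clog_lt_self (b := 2) (by norm_num) h1
    have hcl : 0 < Nat.clog 2 b := Nat.clog_pos (by norm_num) h1
    obtain ⟨q, hq⟩ := Nat.exists_eq_succ_of_ne_zero hcl.ne'
    rw [hq] at this ⊢
    simp only [Nat.pred_succ] at this
    rw [pow_succ]
    omega

open Classical in
/-- G10: the deep pairs -/
theorem deep (h1 : NonspecStmt) (h2 : DeepSumG) (h3 : WtG) (h4 : DivSumStmt) : DeepG := by
  intro c ε hc hε
  obtain ⟨Cn, hCn, hn⟩ := h1 (1 / c)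
  obtain ⟨Cs, hCs, hs⟩ := h2
  refine ⟨(6 ^ ε * 6 ^ ε * Cn) * Cs, by positivity, ?_⟩
  intro δ ψ S lev hS hsum hlev
  -- a bound for all indices
  obtain ⟨N, hN⟩ : ∃ N : ℕ, ∀ n ∈ S, lev n < N ∧ Nat.log 2 n < N ∧
      ∀ b : ℕ, b ≤ n → Nat.clog 2 b < N := by
    refine ⟨∑ n ∈ S, (lev n + Nat.log 2 n + Nat.clog 2 n + 1), ?_⟩
    intro n hn
    have h1 : lev n + Nat.log 2 n + Nat.clog 2 n + 1 ≤
        ∑ n ∈ S, (lev n + Nat.log 2 n + Nat.clog 2 n + 1) :=
      Finset.single_le_sum (f := fun n => lev n + Nat.log 2 n + Nat.clog 2 n + 1)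
        (fun _ _ => Nat.zero_le _) hn
    refine ⟨by omega, by omega, ?_⟩
    intro b hb
    have := Nat.clog_mono_right 2 hb
    omega
  have hwt : ∀ n ∈ S, Nat.log 2 n + 3 ≤ lev n ∧ 0 < wt ε (ψ n) ∧ wt ε (ψ n) ≤ 1 ∧
      (((lev n - Nat.log 2 n : ℕ) : ℝ) + 1) ^ (-ε) ≤ wt ε (ψ n) ∧
      wt ε (ψ n) ≤ 3 ^ ε * ((lev n - Nat.log 2 n : ℕ) : ℝ) ^ (-ε) := fun n hn =>
    h3 ε ψ (lev n) n hε (hS n hn).1 (hS n hn).2.2.1 (hS n hn).2.2.2 (hlev n hn)
  have hψ0 : ∀ n ∈ S, 0 < ψ n := fun n hn => (hS n hn).2.2.1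
  -- class masses
  set xx : ℕ → ℕ → ℝ := fun k s => cmass ψ S k s with hxx
  have hclass : ∀ n ∈ S, inClass ψ (lev n) (Nat.log 2 n) n := by
    intro n hn
    have hn0 := (hS n hn).1
    exact ⟨Nat.pow_log_le_self 2 hn0.ne', Nat.lt_pow_succ_log_self (by norm_num) n,
      (hlev n hn).1, (hlev n hn).2⟩
  have hclassu : ∀ n k s, inClass ψ k s n → n ∈ S → k = lev n ∧ s = Nat.log 2 n := by
    intro n k s hk hn
    obtain ⟨g1, g2, g3, g4⟩ := hk
    exact ⟨F.lev_unique ψ k (lev n) n ⟨g3, g4⟩ (hlev n hn),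
      (Nat.log_eq_of_pow_le_of_lt_pow g1 g2).symm⟩
  have hx0 : ∀ k s, 0 ≤ xx k s := by
    intro k s
    apply Finset.sum_nonneg
    intro n hn
    rw [Finset.mem_filter] at hn
    exact (hS n hn.1).2.2.1.le
  -- level masses
  set X : ℕ → ℝ := fun k => ∑ n ∈ S.filter (fun n => lev n = k), wt ε (ψ n) * ψ n with hX
  have hX0 : ∀ k, 0 ≤ X k := by
    intro k
    apply Finset.sum_nonneg
    intro n hn
    have hn' := (Finset.mem_filter.mp hn).1
    exact mul_nonneg (hwt n hn').2.1.le (hψ0 n hn').le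
  have hXsum : ∑ k ∈ Finset.range N, X k ≤ 1 := by
    refine le_trans (le_of_eq ?_) hsum
    exact Finset.sum_fiberwise_of_maps_to (fun n hn => Finset.mem_range.mpr (hN n hn).1) _
  have hxX : ∀ k s, s ≤ k → xx k s ≤ (((k - s : ℕ) : ℝ) + 1) ^ ε * X k := by
    intro k s _
    change ∑ n ∈ S.filter (fun n => inClass ψ k s n), ψ n ≤ _
    rw [hX]
    simp only
    rw [Finset.mul_sum]
    calc ∑ n ∈ S.filter (fun n => inClass ψ k s n), ψ n
        ≤ ∑ n ∈ S.filter (fun n => inClass ψ k s n),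
          (((k - s : ℕ) : ℝ) + 1) ^ ε * (wt ε (ψ n) * ψ n) := by
          apply Finset.sum_le_sum
          intro n hn
          rw [Finset.mem_filter] at hn
          obtain ⟨e1, e2⟩ := hclassu n k s hn.2 hn.1
          have g := (hwt n hn.1).2.2.2.1
          rw [← e1, ← e2] at g
          have hb : (0:ℝ) < ((k - s : ℕ) : ℝ) + 1 := by positivity
          have g2 : 1 ≤ (((k - s : ℕ) : ℝ) + 1) ^ ε * wt ε (ψ n) := by
            calc (1:ℝ) = (((k - s : ℕ) : ℝ) + 1) ^ ε * (((k - s : ℕ) : ℝ) + 1) ^ (-ε) := by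
                  rw [← Real.rpow_add hb, add_neg_cancel, Real.rpow_zero]
              _ ≤ _ := mul_le_mul_of_nonneg_left g (by positivity)
          have g3 := hψ0 n hn.1
          nlinarith
      _ ≤ _ := by
          apply Finset.sum_le_sum_of_subset_of_nonneg
          · intro n hn
            rw [Finset.mem_filter] at hn ⊢
            exact ⟨hn.1, (hclassu n k s hn.2 hn.1).1.symm⟩
          · intro n hn _
            have hn' := (Finset.mem_filter.mp hn).1
            have g1 := (hwt n hn').2.1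
            have g2 := hψ0 n hn'
            positivity
  have hmain := hs N X hX0 hXsum
  have hrp : ∀ n ∈ S, rp n ≤ 1 / c := fun n hn => (h4 c n hc (hS n hn).1 (hS n hn).2.1).2
  calc ∑ z ∈ (S ×ˢ S).filter (fun z => DeepP δ lev z), wt ε (ψ z.1) * wt ε (ψ z.2) *
        (ψ z.2 / ((z.2 / z.1.gcd z.2 : ℕ) : ℝ))
      ≤ ∑ k ∈ Finset.range N, ∑ l ∈ (Finset.range N).filter (fun l => k ≤ l),
      ∑ s ∈ (Finset.range N).filter (fun s => s ≤ k),
      ∑ t ∈ (Finset.range N).filter (fun t => t ≤ l),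
      ∑ m ∈ (Finset.range N).filter (fun m => m + s ≤ k ∧
          ((k - s) + (l - t) + 1) ^ 28 * 2 ^ (m + s) ≤ 2 * 2 ^ k),
        (6 ^ ε * 6 ^ ε * Cn) * ((2:ℝ) ^ (((m:ℝ) + s - k) / 7) *
          (2:ℝ) ^ (-(3 * ((l:ℝ) - k)) / 7) * (X k * X l) ^ ((4:ℝ)/7)) := by
        apply sum_fiber_le _ _ (fun z => lev z.1)
        · intro z hz
          rw [Finset.mem_filter, Finset.mem_product] at hz
          exact Finset.mem_range.mpr (hN z.1 hz.1.1).1
        intro k _
        apply sum_fiber_le _ _ (fun z => lev z.2)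
        · intro z hz
          rw [Finset.mem_filter, Finset.mem_filter, Finset.mem_product] at hz
          rw [Finset.mem_filter]
          refine ⟨Finset.mem_range.mpr (hN z.2 hz.1.1.2).1, ?_⟩
          rw [← hz.2]
          exact hz.1.2.1.2.1
        intro l hl
        apply sum_fiber_le _ _ (fun z => Nat.log 2 z.1)
        · intro z hz
          simp only [Finset.mem_filter, Finset.mem_product] at hz
          obtain ⟨⟨⟨⟨hz1, hz2⟩, hzN⟩, e1⟩, e2⟩ := hz
          rw [Finset.mem_filter]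
          refine ⟨Finset.mem_range.mpr (hN z.1 hz1).2.1, ?_⟩
          rw [← e1]
          have := (hwt z.1 hz1).1
          omega
        intro s hs'
        apply sum_fiber_le _ _ (fun z => Nat.log 2 z.2)
        · intro z hz
          simp only [Finset.mem_filter, Finset.mem_product] at hz
          obtain ⟨⟨⟨⟨⟨hz1, hz2⟩, hzN⟩, e1⟩, e2⟩, e3⟩ := hz
          rw [Finset.mem_filter]
          refine ⟨Finset.mem_range.mpr (hN z.2 hz2).2.1, ?_⟩
          rw [← e2]
          have := (hwt z.2 hz2).1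
          omega
        intro t ht'
        apply sum_fiber_le _ _ (fun z => Nat.clog 2 (z.2 / z.1.gcd z.2))
        · intro z hz
          simp only [Finset.mem_filter, Finset.mem_product] at hz
          obtain ⟨⟨⟨⟨⟨⟨hz1, hz2⟩, hzN⟩, e1⟩, e2⟩, e3⟩, e4⟩ := hz
          rw [Finset.mem_filter]
          have hz10 : 0 < z.1 := (hS z.1 hz1).1
          have hz20 : 0 < z.2 := (hS z.2 hz2).1
          have hb0 : 0 < z.2 / z.1.gcd z.2 :=
            Nat.div_pos (Nat.le_of_dvd hz20 (Nat.gcd_dvd_right _ _))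
              (Nat.gcd_pos_of_pos_left _ hz10)
          refine ⟨Finset.mem_range.mpr ((hN z.2 hz2).2.2 _ (Nat.div_le_self _ _)), ?_, ?_⟩
          · have := hzN.1.2.2.1
            rw [e1, e3] at this
            exact this
          · have hlt := hzN.2
            unfold dp at hlt
            rw [e1, e2, e3, e4] at hlt
            have hb2 := deep_clog (z.2 / z.1.gcd z.2) hb0
            have hs2 : 2 ^ s ≤ z.1 := by
              rw [← e3]
              exact Nat.pow_log_le_self 2 hz10.ne'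
            have hlcm : z.1.lcm z.2 = z.1 * (z.2 / z.1.gcd z.2) := by
              rw [Nat.lcm, Nat.mul_div_assoc _ (Nat.gcd_dvd_right _ _)]
            calc ((k - s) + (l - t) + 1) ^ 28 * 2 ^ (Nat.clog 2 (z.2 / z.1.gcd z.2) + s)
                = ((k - s) + (l - t) + 1) ^ 28 *
                  (2 ^ (Nat.clog 2 (z.2 / z.1.gcd z.2)) * 2 ^ s) := by rw [pow_add 2]
              _ ≤ ((k - s) + (l - t) + 1) ^ 28 * ((2 * (z.2 / z.1.gcd z.2)) * z.1) := by
                  exact Nat.mul_le_mul_left _ (Nat.mul_le_mul hb2.le hs2)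
              _ = 2 * (((k - s) + (l - t) + 1) ^ 28 * (z.1.lcm z.2)) := by rw [hlcm]; ring
              _ ≤ 2 * 2 ^ k := Nat.mul_le_mul_left _ hlt.le
        intro m hm
        rw [Finset.mem_filter] at hl hm hs' ht'
        set V := S.filter (fun n => inClass ψ k s n) with hV
        set W := S.filter (fun n => inClass ψ l t n) with hW
        set G := ((((((S ×ˢ S).filter (fun z => DeepP δ lev z)).filter
          (fun z => lev z.1 = k)).filter (fun z => lev z.2 = l)).filter
          (fun z => Nat.log 2 z.1 = s)).filter (fun z => Nat.log 2 z.2 = t)).filter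
          (fun z => Nat.clog 2 (z.2 / z.1.gcd z.2) = m) with hG
        have hGmem : ∀ z ∈ G, z.1 ∈ S ∧ z.2 ∈ S ∧ NSP δ lev z ∧ lev z.1 = k ∧ lev z.2 = l ∧
            Nat.log 2 z.1 = s ∧ Nat.log 2 z.2 = t ∧ Nat.clog 2 (z.2 / z.1.gcd z.2) = m := by
          intro z hz
          simp only [hG, Finset.mem_filter, Finset.mem_product] at hz
          obtain ⟨⟨⟨⟨⟨⟨⟨hz1, hz2⟩, hzN⟩, e1⟩, e2⟩, e3⟩, e4⟩, e5⟩ := hz
          exact ⟨hz1, hz2, hzN.1, e1, e2, e3, e4, e5⟩
        rcases G.eq_empty_or_nonempty with hGe | ⟨z0, hz0⟩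
        · rw [hGe, Finset.sum_empty]
          have := hX0 k
          have := hX0 l
          positivity
        · have hcond : (hcount δ ((2:ℝ) ^ ((m:ℤ) + s + 2 - k))
              (max ((2:ℝ) ^ ((m:ℤ) + s + 1 - t)) (2 ^ m)) : ℝ) ≤
              24 * ((2:ℝ) ^ ((m:ℤ) + s + 2 - k)) *
              (max ((2:ℝ) ^ ((m:ℤ) + s + 1 - t)) (2 ^ m)) := by
            obtain ⟨-, -, hzN, e1, e2, e3, e4, e5⟩ := hGmem z0 hz0
            have := hzN.2.2.2.1
            rw [e1, e3, e4, e5] at this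
            exact this
          have hb := hn δ ψ k s l t m V W hl.2 hm.2.1
            (by
              intro v hv
              rw [hV, Finset.mem_filter] at hv
              exact ⟨(hS v hv.1).1, hrp v hv.1, hv.2⟩)
            (by
              intro v hv
              rw [hW, Finset.mem_filter] at hv
              exact ⟨(hS v hv.1).1, hrp v hv.1, hv.2⟩) hcond
          have hxk : ∑ v ∈ V, ψ v = xx k s := rfl
          have hxl : ∑ v ∈ W, ψ v = xx l t := rfl
          rw [hxk, hxl] at hb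
          have hks : 1 ≤ ((k - s : ℕ) : ℝ) := by
            obtain ⟨q1, q2, -, e1, e2, e3, e4, -⟩ := hGmem z0 hz0
            have := (hwt z0.1 q1).1
            rw [e1, e3] at this
            have : 1 ≤ k - s := by omega
            exact_mod_cast this
          have hlt : 1 ≤ ((l - t : ℕ) : ℝ) := by
            obtain ⟨q1, q2, -, e1, e2, e3, e4, -⟩ := hGmem z0 hz0
            have := (hwt z0.2 q2).1
            rw [e2, e4] at this
            have : 1 ≤ l - t := by omega
            exact_mod_cast this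
          set σ : ℝ := ((k - s : ℕ) : ℝ) with hσ
          set τ : ℝ := ((l - t : ℕ) : ℝ) with hτ
          have hA0 : (0:ℝ) ≤ (3 ^ ε * σ ^ (-ε)) * (3 ^ ε * τ ^ (-ε)) := by positivity
          have hstep1 : ∑ z ∈ G, wt ε (ψ z.1) * wt ε (ψ z.2) *
              (ψ z.2 / ((z.2 / z.1.gcd z.2 : ℕ) : ℝ)) ≤
              (3 ^ ε * σ ^ (-ε)) * (3 ^ ε * τ ^ (-ε)) *
                ∑ z ∈ G, ψ z.2 / ((z.2 / z.1.gcd z.2 : ℕ) : ℝ) := by
            rw [Finset.mul_sum]
            apply Finset.sum_le_sum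
            intro z hz
            obtain ⟨z1, z2, -, e1, e2, e3, e4, -⟩ := hGmem z hz
            have g1 := (hwt z.1 z1).2.2.2.2
            have g2 := (hwt z.2 z2).2.2.2.2
            rw [e1, e3] at g1
            rw [e2, e4] at g2
            have g3 := hψ0 z.2 z2
            apply mul_le_mul_of_nonneg_right _ (by positivity)
            exact mul_le_mul g1 g2 (hwt z.2 z2).2.1.le (by positivity)
          have hstep2 : ∑ z ∈ G, ψ z.2 / ((z.2 / z.1.gcd z.2 : ℕ) : ℝ) ≤
              Cn * (2:ℝ) ^ (((m:ℝ) + s - k) / 7) * (2:ℝ) ^ (-(3 * ((l:ℝ) - k)) / 7) *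
                (xx k s * xx l t) ^ ((4:ℝ)/7) := by
            refine le_trans ?_ hb
            apply Finset.sum_le_sum_of_subset_of_nonneg
            · intro z hz
              obtain ⟨z1, z2, hzN, e1, e2, e3, e4, e5⟩ := hGmem z hz
              have hz10 : 0 < z.1 := (hS z.1 z1).1
              have hz20 : 0 < z.2 := (hS z.2 z2).1
              have hb0 : 0 < z.2 / z.1.gcd z.2 :=
                Nat.div_pos (Nat.le_of_dvd hz20 (Nat.gcd_dvd_right _ _))
                  (Nat.gcd_pos_of_pos_left _ hz10)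
              rw [Finset.mem_filter, Finset.mem_product]
              refine ⟨⟨?_, ?_⟩, hzN.1, ?_, ?_, ?_⟩
              · rw [hV, Finset.mem_filter]
                refine ⟨z1, ?_⟩
                rw [← e1, ← e3]
                exact hclass z.1 z1
              · rw [hW, Finset.mem_filter]
                refine ⟨z2, ?_⟩
                rw [← e2, ← e4]
                exact hclass z.2 z2
              · rw [← e5]
                exact Nat.le_pow_clog (by norm_num) _
              · rw [← e5]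
                exact deep_clog _ hb0
              · have := hzN.2.2.2.2
                rw [e1, e3, e5] at this
                exact this
            · intro z hz _
              rw [Finset.mem_filter, Finset.mem_product] at hz
              have := hψ0 z.2 (Finset.mem_filter.mp hz.1.2).1
              positivity
          have hstep3 : (xx k s * xx l t) ^ ((4:ℝ)/7) ≤
              (σ + 1) ^ ε * (τ + 1) ^ ε * (X k * X l) ^ ((4:ℝ)/7) := by
            have b1 : 1 ≤ (σ + 1) ^ ε := Real.one_le_rpow (by linarith) hε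
            have b2 : 1 ≤ (τ + 1) ^ ε := Real.one_le_rpow (by linarith) hε
            have b3 : 1 ≤ (σ + 1) ^ ε * (τ + 1) ^ ε := one_le_mul_of_one_le_of_one_le b1 b2
            have b4 : 0 ≤ X k * X l := mul_nonneg (hX0 k) (hX0 l)
            calc (xx k s * xx l t) ^ ((4:ℝ)/7)
                ≤ (((σ + 1) ^ ε * X k) * ((τ + 1) ^ ε * X l)) ^ ((4:ℝ)/7) := by
                  apply Real.rpow_le_rpow (mul_nonneg (hx0 k s) (hx0 l t)) _ (by norm_num)
                  exact mul_le_mul (hxX k s hs'.2) (hxX l t ht'.2) (hx0 l t)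
                    (mul_nonneg (by linarith) (hX0 k))
              _ = ((σ + 1) ^ ε * (τ + 1) ^ ε) ^ ((4:ℝ)/7) * (X k * X l) ^ ((4:ℝ)/7) := by
                  rw [← Real.mul_rpow (by linarith) b4]
                  congr 1
                  ring
              _ ≤ _ := by
                  apply mul_le_mul_of_nonneg_right _ (Real.rpow_nonneg b4 _)
                  calc ((σ + 1) ^ ε * (τ + 1) ^ ε) ^ ((4:ℝ)/7)
                      ≤ ((σ + 1) ^ ε * (τ + 1) ^ ε) ^ (1:ℝ) :=
                        Real.rpow_le_rpow_of_exponent_le b3 (by norm_num)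
                    _ = _ := Real.rpow_one _
          set P : ℝ := (2:ℝ) ^ (((m:ℝ) + s - k) / 7) * (2:ℝ) ^ (-(3 * ((l:ℝ) - k)) / 7) with hP
          have hP0 : 0 ≤ P := by positivity
          have hXX : 0 ≤ (X k * X l) ^ ((4:ℝ)/7) :=
            Real.rpow_nonneg (mul_nonneg (hX0 k) (hX0 l)) _
          have a1 := deep_aux ε σ hε hks
          have a2 := deep_aux ε τ hε hlt
          calc ∑ z ∈ G, wt ε (ψ z.1) * wt ε (ψ z.2) *
                (ψ z.2 / ((z.2 / z.1.gcd z.2 : ℕ) : ℝ))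
              ≤ (3 ^ ε * σ ^ (-ε)) * (3 ^ ε * τ ^ (-ε)) *
                ∑ z ∈ G, ψ z.2 / ((z.2 / z.1.gcd z.2 : ℕ) : ℝ) := hstep1
            _ ≤ (3 ^ ε * σ ^ (-ε)) * (3 ^ ε * τ ^ (-ε)) *
                (Cn * P * ((σ + 1) ^ ε * (τ + 1) ^ ε * (X k * X l) ^ ((4:ℝ)/7))) := by
                apply mul_le_mul_of_nonneg_left _ hA0
                refine hstep2.trans ?_
                have : Cn * (2:ℝ) ^ (((m:ℝ) + s - k) / 7) * (2:ℝ) ^ (-(3 * ((l:ℝ) - k)) / 7) *
                    (xx k s * xx l t) ^ ((4:ℝ)/7) = Cn * P * (xx k s * xx l t) ^ ((4:ℝ)/7) := by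
                  rw [hP]
                  ring
                rw [this]
                exact mul_le_mul_of_nonneg_left hstep3 (by positivity)
            _ = ((3 ^ ε * σ ^ (-ε) * (σ + 1) ^ ε) * (3 ^ ε * τ ^ (-ε) * (τ + 1) ^ ε)) *
                (Cn * P * (X k * X l) ^ ((4:ℝ)/7)) := by ring
            _ ≤ (6 ^ ε * 6 ^ ε) * (Cn * P * (X k * X l) ^ ((4:ℝ)/7)) := by
                apply mul_le_mul_of_nonneg_right _ (by positivity)
                exact mul_le_mul a1 a2 (by positivity) (by positivity)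
            _ = (6 ^ ε * 6 ^ ε * Cn) * (P * (X k * X l) ^ ((4:ℝ)/7)) := by ring
    _ = (6 ^ ε * 6 ^ ε * Cn) * ∑ k ∈ Finset.range N,
      ∑ l ∈ (Finset.range N).filter (fun l => k ≤ l),
      ∑ s ∈ (Finset.range N).filter (fun s => s ≤ k),
      ∑ t ∈ (Finset.range N).filter (fun t => t ≤ l),
      ∑ m ∈ (Finset.range N).filter (fun m => m + s ≤ k ∧
          ((k - s) + (l - t) + 1) ^ 28 * 2 ^ (m + s) ≤ 2 * 2 ^ k),
        ((2:ℝ) ^ (((m:ℝ) + s - k) / 7) * (2:ℝ) ^ (-(3 * ((l:ℝ) - k)) / 7) *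
          (X k * X l) ^ ((4:ℝ)/7)) := by
        simp only [Finset.mul_sum]
    _ ≤ (6 ^ ε * 6 ^ ε * Cn) * Cs :=
        mul_le_mul_of_nonneg_left hmain (by positivity)

end Pool.Agent.MP_0863b8.G
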