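import Pool.Agent.Work.MP_0863b8_nt.Bd.B03
import Pool.Agent.Work.MP_0863b8_nt.Bd.B01

/-!
MP_0863b8_nt, item G8: summation of the deep part.
-/

namespace Pool.Agent.MP_0863b8.G

open Pool.Agent.MP_0863b8

theorem dg_sq (n : ℕ) : ∑ a ∈ Finset.range n, (1:ℝ) / ((a:ℝ) + 1) ^ 2 ≤ 3 - 2 / ((n:ℝ) + 1) := by
  induction n with
  | zero => norm_num
  | succ n ih =>
    rw [Finset.sum_range_succ]
    have h1 : (1:ℝ) / ((n:ℝ) + 1) ^ 2 ≤ 2 / ((n:ℝ) + 1) - 2 / ((n:ℝ) + 1 + 1) := by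
      have e : 2 / ((n:ℝ) + 1) - 2 / ((n:ℝ) + 1 + 1) = 2 / (((n:ℝ) + 1) * ((n:ℝ) + 1 + 1)) := by
        field_simp
        ring
      rw [e, div_le_div_iff₀ (by positivity) (by positivity)]
      nlinarith [(Nat.cast_nonneg n : (0:ℝ) ≤ n)]
    push_cast
    linarith

theorem dg_sum (N k : ℕ) : ∑ s ∈ (Finset.range N).filter (fun s => s ≤ k),
    (1:ℝ) / (((k - s : ℕ) : ℝ) + 1) ^ 2 ≤ 3 := by
  have hinj : Set.InjOn (fun s => k - s) ((Finset.range N).filter (fun s => s ≤ k)) := by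
    intro a ha b hb hab
    rw [Finset.mem_coe, Finset.mem_filter] at ha hb
    simp only at hab
    omega
  have h1 := Finset.sum_image (f := fun a : ℕ => (1:ℝ) / ((a:ℝ) + 1) ^ 2) hinj
  rw [← h1]
  have h2 : ((Finset.range N).filter (fun s => s ≤ k)).image (fun s => k - s) ⊆
      Finset.range (k + 1) := by
    intro a ha
    rw [Finset.mem_image] at ha
    obtain ⟨s, _, rfl⟩ := ha
    rw [Finset.mem_range]
    omega
  refine (Finset.sum_le_sum_of_subset_of_nonneg h2 (fun a _ _ => by positivity)).trans ?_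
  refine (dg_sq (k + 1)).trans ?_
  have : (0:ℝ) ≤ 2 / (((k + 1 : ℕ) : ℝ) + 1) := by positivity
  linarith

/-- inner sum over `m` -/
theorem dg_inner (N s k B : ℕ) (hB : 1 ≤ B) :
    ∑ m ∈ (Finset.range N).filter (fun m => m + s ≤ k ∧ B ^ 28 * 2 ^ (m + s) ≤ 2 * 2 ^ k),
      (2:ℝ) ^ (((m:ℝ) + s - k) / 7) ≤
      2 * (1 / (B:ℝ) ^ 4) * (1 - (2:ℝ) ^ (-(1/7 : ℝ)))⁻¹ := by
  set c := Nat.clog 2 (B ^ 28) with hc
  have hBc : B ^ 28 ≤ 2 ^ c := Nat.le_pow_clog (by norm_num) _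
  have hB0 : (0:ℝ) < B := by exact_mod_cast hB
  have hq : ((2:ℝ) ^ (-(1/7 : ℝ))) ^ c ≤ 1 / (B:ℝ) ^ 4 := by
    have h1 : ((B:ℝ) ^ (28:ℕ)) ≤ (2:ℝ) ^ c := by exact_mod_cast hBc
    have h2 := Real.rpow_le_rpow (by positivity) h1 (by norm_num : (0:ℝ) ≤ 1/7)
    have e1 : ((B:ℝ) ^ (28:ℕ)) ^ ((1:ℝ)/7) = (B:ℝ) ^ (4:ℕ) := by
      rw [← Real.rpow_natCast, ← Real.rpow_natCast, ← Real.rpow_mul hB0.le]
      norm_num
    have e2 : ((2:ℝ) ^ (-(1/7 : ℝ))) ^ c = (((2:ℝ) ^ c) ^ ((1:ℝ)/7))⁻¹ := by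
      rw [← Real.rpow_natCast, ← Real.rpow_natCast, ← Real.rpow_mul (by norm_num),
        ← Real.rpow_mul (by norm_num), ← Real.rpow_neg (by norm_num)]
      congr 1
      ring
    rw [e1] at h2
    rw [e2, one_div ((B:ℝ) ^ 4)]
    exact inv_anti₀ (by positivity) h2
  have h1 : ∀ m ∈ (Finset.range N).filter
      (fun m => m + s ≤ k ∧ B ^ 28 * 2 ^ (m + s) ≤ 2 * 2 ^ k),
      (2:ℝ) ^ (((m:ℝ) + s - k) / 7) ≤
        2 * (1 / (B:ℝ) ^ 4) * ((2:ℝ) ^ (-(1/7 : ℝ))) ^ (k - s - m + 1 - c) := by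
    intro m hm
    rw [Finset.mem_filter] at hm
    obtain ⟨-, hms, hk⟩ := hm
    set j := k - s - m with hj
    have hjk : k = m + s + j := by omega
    have hBj : B ^ 28 ≤ 2 ^ (j + 1) := by
      have h3 : 2 * 2 ^ k = 2 ^ (j + 1) * 2 ^ (m + s) := by
        rw [hjk]
        ring
      rw [h3] at hk
      exact Nat.le_of_mul_le_mul_right hk (by positivity)
    have hcj : c ≤ j + 1 := Nat.clog_le_of_le_pow hBj
    have e1 : (2:ℝ) ^ (((m:ℝ) + s - k) / 7) = ((2:ℝ) ^ (-(1/7 : ℝ))) ^ j := by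
      apply cs_pow
      rw [hjk]
      push_cast
      ring
    set r : ℝ := (2:ℝ) ^ (-(1/7 : ℝ)) with hr
    have hr0 : 0 < r := cs_pos _
    have hr2 : 1 ≤ 2 * r := by
      have h5 : (2:ℝ) ^ (-(1:ℝ)) ≤ r :=
        Real.rpow_le_rpow_of_exponent_le (by norm_num) (by norm_num)
      rw [Real.rpow_neg_one] at h5
      linarith
    have e2 : r ^ (j + 1) = r ^ c * r ^ (j + 1 - c) := by
      rw [← pow_add]
      congr 1
      omega
    rw [e1]
    have hp : 0 < r ^ j := pow_pos hr0 j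
    calc r ^ j ≤ (2 * r) * r ^ j := by nlinarith
      _ = 2 * r ^ (j + 1) := by rw [pow_succ]; ring
      _ = 2 * r ^ c * r ^ (j + 1 - c) := by rw [e2]; ring
      _ ≤ 2 * (1 / (B:ℝ) ^ 4) * r ^ (j + 1 - c) := by
          refine mul_le_mul_of_nonneg_right ?_ (pow_nonneg hr0.le _)
          linarith
  refine (Finset.sum_le_sum h1).trans ?_
  rw [← Finset.mul_sum]
  refine mul_le_mul_of_nonneg_left ?_ (by positivity)
  apply cs_geom_image _ (cs_pos _).le (cs_lt_one _ (by norm_num)) _ (fun m => k - s - m + 1 - c)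
  intro a ha b hb hab
  rw [Finset.mem_coe, Finset.mem_filter] at ha hb
  simp only at hab
  obtain ⟨-, ha1, ha2⟩ := ha
  obtain ⟨-, hb1, hb2⟩ := hb
  have key : ∀ m, m + s ≤ k → B ^ 28 * 2 ^ (m + s) ≤ 2 * 2 ^ k → c ≤ k - s - m + 1 := by
    intro m hms hk
    have hjk : k = m + s + (k - s - m) := by omega
    have hBj : B ^ 28 ≤ 2 ^ (k - s - m + 1) := by
      have h3 : 2 * 2 ^ k = 2 ^ (k - s - m + 1) * 2 ^ (m + s) := by
        conv_lhs => rw [hjk]
        ring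
      rw [h3] at hk
      exact Nat.le_of_mul_le_mul_right hk (by positivity)
    exact Nat.clog_le_of_le_pow hBj
  have k1 := key a ha1 ha2
  have k2 := key b hb1 hb2
  omega

theorem deepSum : DeepSumG := by
  set G : ℝ := (1 - (2:ℝ) ^ (-(1/7 : ℝ)))⁻¹ with hG
  set H : ℝ := (1 - (2:ℝ) ^ (-(3/7 : ℝ)))⁻¹ with hH
  have hGpos : 0 < G := by
    rw [hG]
    have := cs_lt_one (1/7) (by norm_num)
    exact inv_pos.mpr (by linarith)
  have hHpos : 0 < H := by
    rw [hH]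
    have := cs_lt_one (3/7) (by norm_num)
    exact inv_pos.mpr (by linarith)
  refine ⟨18 * G * H, by positivity, ?_⟩
  intro N X hX0 hsum
  have hX1 : ∀ k ∈ Finset.range N, X k ≤ 1 := fun k hk =>
    (Finset.single_le_sum (f := X) (fun i _ => hX0 i) hk).trans hsum
  have hin : ∀ k ∈ Finset.range N, ∀ l ∈ (Finset.range N).filter (fun l => k ≤ l),
      ∑ s ∈ (Finset.range N).filter (fun s => s ≤ k),
      ∑ t ∈ (Finset.range N).filter (fun t => t ≤ l),
      ∑ m ∈ (Finset.range N).filter (fun m => m + s ≤ k ∧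
          ((k - s) + (l - t) + 1) ^ 28 * 2 ^ (m + s) ≤ 2 * 2 ^ k),
        (2:ℝ) ^ (((m:ℝ) + s - k) / 7) * (2:ℝ) ^ (-(3 * ((l:ℝ) - k)) / 7) *
          (X k * X l) ^ ((4:ℝ)/7) ≤
      9 * G * (((2:ℝ) ^ (-(3/7 : ℝ))) ^ (l - k) * X k +
        ((2:ℝ) ^ (-(3/7 : ℝ))) ^ (l - k) * X l) := by
    intro k hk l hl
    rw [Finset.mem_filter] at hl
    have hq : (2:ℝ) ^ (-(3 * ((l:ℝ) - k)) / 7) = ((2:ℝ) ^ (-(3/7 : ℝ))) ^ (l - k) := by
      apply cs_pow
      rw [Nat.cast_sub hl.2]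
      ring
    rw [hq]
    set Q : ℝ := ((2:ℝ) ^ (-(3/7 : ℝ))) ^ (l - k) with hQ
    have hQ0 : 0 ≤ Q := by rw [hQ]; exact pow_nonneg (cs_pos _).le _
    set Z : ℝ := (X k * X l) ^ ((4:ℝ)/7) with hZ
    have hZ0 : 0 ≤ Z := Real.rpow_nonneg (mul_nonneg (hX0 k) (hX0 l)) _
    have hZ1 : Z ≤ (X k + X l) / 2 := by
      have b0 : 0 ≤ X k * X l := mul_nonneg (hX0 k) (hX0 l)
      have b1 : X k * X l ≤ 1 := by
        have := mul_le_mul (hX1 k hk) (hX1 l hl.1) (hX0 l) zero_le_one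
        linarith
      calc (X k * X l) ^ ((4:ℝ)/7) ≤ (X k * X l) ^ ((1:ℝ)/2) := by
            rcases b0.lt_or_eq with h | h
            · exact Real.rpow_le_rpow_of_exponent_ge h b1 (by norm_num)
            · rw [← h, Real.zero_rpow (by norm_num), Real.zero_rpow (by norm_num)]
        _ = Real.sqrt (X k * X l) := (Real.sqrt_eq_rpow _).symm
        _ ≤ (X k + X l) / 2 := by
            apply Real.sqrt_le_iff.mpr
            refine ⟨by have := hX0 k; have := hX0 l; linarith, ?_⟩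
            nlinarith [sq_nonneg (X k - X l)]
    have h1 : ∀ s ∈ (Finset.range N).filter (fun s => s ≤ k),
        ∀ t ∈ (Finset.range N).filter (fun t => t ≤ l),
        ∑ m ∈ (Finset.range N).filter (fun m => m + s ≤ k ∧
          ((k - s) + (l - t) + 1) ^ 28 * 2 ^ (m + s) ≤ 2 * 2 ^ k),
        (2:ℝ) ^ (((m:ℝ) + s - k) / 7) * Q * Z ≤
        2 * G * Q * Z * ((1 / (((k - s : ℕ) : ℝ) + 1) ^ 2) * (1 / (((l - t : ℕ) : ℝ) + 1) ^ 2)) := by
      intro s _ t _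
      rw [← Finset.sum_mul, ← Finset.sum_mul]
      have h2 := dg_inner N s k ((k - s) + (l - t) + 1) (by omega)
      have h3 : (1:ℝ) / ((((k - s) + (l - t) + 1 : ℕ)) : ℝ) ^ 4 ≤
          (1 / (((k - s : ℕ) : ℝ) + 1) ^ 2) * (1 / (((l - t : ℕ) : ℝ) + 1) ^ 2) := by
        rw [div_mul_div_comm, one_mul]
        apply div_le_div_of_nonneg_left (by norm_num) (by positivity)
        have ha : (0:ℝ) ≤ ((k - s : ℕ) : ℝ) := Nat.cast_nonneg _
        have hb : (0:ℝ) ≤ ((l - t : ℕ) : ℝ) := Nat.cast_nonneg _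
        have e : ((((k - s) + (l - t) + 1 : ℕ)) : ℝ) = ((k - s : ℕ) : ℝ) + ((l - t : ℕ) : ℝ) + 1 := by
          push_cast
          ring
        rw [e]
        generalize ((k - s : ℕ) : ℝ) = a at ha ⊢
        generalize ((l - t : ℕ) : ℝ) = b at hb ⊢
        have h5 : (a + 1) * (b + 1) ≤ (a + b + 1) ^ 2 := by nlinarith [mul_nonneg ha hb]
        calc (a + 1) ^ 2 * (b + 1) ^ 2 = ((a + 1) * (b + 1)) ^ 2 := by ring
          _ ≤ ((a + b + 1) ^ 2) ^ 2 := by
              apply pow_le_pow_left₀ (by positivity) h5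
          _ = (a + b + 1) ^ 4 := by ring
      have h4 := h2.trans (mul_le_mul_of_nonneg_right
        (mul_le_mul_of_nonneg_left h3 (by norm_num : (0:ℝ) ≤ 2)) hGpos.le)
      calc _ ≤ 2 * (1 / (((k - s : ℕ) : ℝ) + 1) ^ 2 * (1 / (((l - t : ℕ) : ℝ) + 1) ^ 2)) * G * Q * Z :=
            mul_le_mul_of_nonneg_right (mul_le_mul_of_nonneg_right h4 hQ0) hZ0
        _ = _ := by ring
    refine (Finset.sum_le_sum (fun s hs => Finset.sum_le_sum (fun t ht => h1 s hs t ht))).trans ?_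
    have h2 : ∑ s ∈ (Finset.range N).filter (fun s => s ≤ k),
        ∑ t ∈ (Finset.range N).filter (fun t => t ≤ l),
        2 * G * Q * Z * ((1 / (((k - s : ℕ) : ℝ) + 1) ^ 2) * (1 / (((l - t : ℕ) : ℝ) + 1) ^ 2)) =
        2 * G * Q * Z * ((∑ s ∈ (Finset.range N).filter (fun s => s ≤ k),
          (1:ℝ) / (((k - s : ℕ) : ℝ) + 1) ^ 2) * (∑ t ∈ (Finset.range N).filter (fun t => t ≤ l),
          (1:ℝ) / (((l - t : ℕ) : ℝ) + 1) ^ 2)) := by
      rw [Finset.sum_mul_sum, Finset.mul_sum]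
      apply Finset.sum_congr rfl
      intro s _
      rw [Finset.mul_sum]
    rw [h2]
    have h3 : (∑ s ∈ (Finset.range N).filter (fun s => s ≤ k),
          (1:ℝ) / (((k - s : ℕ) : ℝ) + 1) ^ 2) * (∑ t ∈ (Finset.range N).filter (fun t => t ≤ l),
          (1:ℝ) / (((l - t : ℕ) : ℝ) + 1) ^ 2) ≤ 9 := by
      have a1 := dg_sum N k
      have a2 := dg_sum N l
      have a3 : (0:ℝ) ≤ ∑ t ∈ (Finset.range N).filter (fun t => t ≤ l),
          (1:ℝ) / (((l - t : ℕ) : ℝ) + 1) ^ 2 := Finset.sum_nonneg (fun _ _ => by positivity)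
      have a4 := mul_le_mul a1 a2 a3 (by norm_num)
      linarith
    calc _ ≤ 2 * G * Q * Z * 9 := mul_le_mul_of_nonneg_left h3 (by positivity)
      _ = 18 * G * Q * Z := by ring
      _ ≤ 18 * G * Q * ((X k + X l) / 2) := mul_le_mul_of_nonneg_left hZ1 (by positivity)
      _ = 9 * G * (Q * X k + Q * X l) := by ring
  refine (Finset.sum_le_sum (fun k hk => Finset.sum_le_sum (fun l hl => hin k hk l hl))).trans ?_
  have h5 : ∑ k ∈ Finset.range N, ∑ l ∈ (Finset.range N).filter (fun l => k ≤ l),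
      9 * G * (((2:ℝ) ^ (-(3/7 : ℝ))) ^ (l - k) * X k +
        ((2:ℝ) ^ (-(3/7 : ℝ))) ^ (l - k) * X l) =
      9 * G * (
        ∑ k ∈ Finset.range N, ∑ l ∈ (Finset.range N).filter (fun l => k ≤ l),
          ((2:ℝ) ^ (-(3/7 : ℝ))) ^ (l - k) * X k +
        ∑ k ∈ Finset.range N, ∑ l ∈ (Finset.range N).filter (fun l => k ≤ l),
          ((2:ℝ) ^ (-(3/7 : ℝ))) ^ (l - k) * X l) := by
    rw [← Finset.sum_add_distrib, Finset.mul_sum]
    apply Finset.sum_congr rfl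
    intro k _
    rw [← Finset.sum_add_distrib, Finset.mul_sum]
  rw [h5]
  have h6 : ∑ k ∈ Finset.range N, ∑ l ∈ (Finset.range N).filter (fun l => k ≤ l),
          ((2:ℝ) ^ (-(3/7 : ℝ))) ^ (l - k) * X k ≤ H := by
    have : ∀ k ∈ Finset.range N, ∑ l ∈ (Finset.range N).filter (fun l => k ≤ l),
          ((2:ℝ) ^ (-(3/7 : ℝ))) ^ (l - k) * X k ≤ H * X k := by
      intro k _
      rw [← Finset.sum_mul]
      apply mul_le_mul_of_nonneg_right _ (hX0 k)
      apply cs_geom_image _ (cs_pos _).le (cs_lt_one _ (by norm_num)) _ (fun l => l - k)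
      intro a ha b hb hab
      rw [Finset.mem_coe, Finset.mem_filter] at ha hb
      simp only at hab
      omega
    refine (Finset.sum_le_sum this).trans ?_
    rw [← Finset.mul_sum]
    calc H * ∑ k ∈ Finset.range N, X k ≤ H * 1 := mul_le_mul_of_nonneg_left hsum hHpos.le
      _ = H := mul_one H
  have h7 : ∑ k ∈ Finset.range N, ∑ l ∈ (Finset.range N).filter (fun l => k ≤ l),
          ((2:ℝ) ^ (-(3/7 : ℝ))) ^ (l - k) * X l ≤ H := by
    have hsw : ∑ k ∈ Finset.range N, ∑ l ∈ (Finset.range N).filter (fun l => k ≤ l),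
          ((2:ℝ) ^ (-(3/7 : ℝ))) ^ (l - k) * X l =
        ∑ l ∈ Finset.range N, ∑ k ∈ (Finset.range N).filter (fun k => k ≤ l),
          ((2:ℝ) ^ (-(3/7 : ℝ))) ^ (l - k) * X l := by
      simp only [Finset.sum_filter]
      rw [Finset.sum_comm]
    rw [hsw]
    have : ∀ l ∈ Finset.range N, ∑ k ∈ (Finset.range N).filter (fun k => k ≤ l),
          ((2:ℝ) ^ (-(3/7 : ℝ))) ^ (l - k) * X l ≤ H * X l := by
      intro l _
      rw [← Finset.sum_mul]
      apply mul_le_mul_of_nonneg_right _ (hX0 l)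
      apply cs_geom_image _ (cs_pos _).le (cs_lt_one _ (by norm_num)) _ (fun k => l - k)
      intro a ha b hb hab
      rw [Finset.mem_coe, Finset.mem_filter] at ha hb
      simp only at hab
      omega
    refine (Finset.sum_le_sum this).trans ?_
    rw [← Finset.mul_sum]
    calc H * ∑ k ∈ Finset.range N, X k ≤ H * 1 := mul_le_mul_of_nonneg_left hsum hHpos.le
      _ = H := mul_one H
  calc _ ≤ 9 * G * (H + H) := mul_le_mul_of_nonneg_left (add_le_add h6 h7) (by positivity)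
    _ = 18 * G * H := by ring

end Pool.Agent.MP_0863b8.G
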