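import Pool.Agent.Work.MP_0863b8_nt.Bd.B03
import Pool.Agent.Work.MP_0863b8_nt.Bd.B02

/-!
MP_0863b8_nt, item G16: the combination of the extra divergence theorem with the theorem for
quickly decaying functions.
-/

set_option autoImplicit false

namespace Pool.Agent.MP_0863b8.G

open MeasureTheory Filter

/-- the combined theorem -/
def FinalStmt : Prop :=
  ∀ (δ : ℝ) (Φ Ψ : ℕ → ℝ) (ε : ℝ), 0 < ε → (∀ n, 0 ≤ Ψ n) → (∀ n, Ψ n ≤ Φ n) → H1 Ψ → H2 Ψ →
    (∀ᶠ n : ℕ in atTop, Ψ n ≤ Real.exp (-(1000 * (Real.log (Real.log n)) ^ 2)) ∨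
      Ψ n ≤ Φ n / (Real.log (3 + 1 / Φ n)) ^ ε) → Concl δ Φ

theorem concl_mono (δ : ℝ) (Φ Φ' : ℕ → ℝ) (h : ∀ n, Φ' n ≤ Φ n) (h' : Concl δ Φ') :
    Concl δ Φ := by
  unfold Concl at h' ⊢
  filter_upwards [h'] with β hβ
  refine hβ.mono ?_
  rintro n ⟨hn, hlt⟩
  exact ⟨hn, lt_of_lt_of_le hlt (h n)⟩

/-- (H1) and (H2) for a function supported on `φ(n)/n ≥ c` with divergent sum -/
theorem h12_of_sum (Ψ : ℕ → ℝ) (c : ℝ) (hc : 0 < c) (h0 : ∀ n, 0 ≤ Ψ n)
    (hs : ∀ n : ℕ, Ψ n ≠ 0 → c ≤ (Nat.totient n : ℝ) / n)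
    (hdiv : ∀ M : ℝ, ∃ N : ℕ, M ≤ ∑ n ∈ Finset.Icc 1 N, Ψ n) : H1 Ψ ∧ H2 Ψ := by
  have hmono : Monotone (fun N : ℕ => ∑ n ∈ Finset.Icc 1 N, Ψ n) := by
    intro a b hab
    apply Finset.sum_le_sum_of_subset_of_nonneg
    · exact Finset.Icc_subset_Icc_right hab
    · intro n _ _
      exact h0 n
  have ht : Tendsto (fun N : ℕ => ∑ n ∈ Finset.Icc 1 N, Ψ n) atTop atTop :=
    tendsto_atTop_atTop_of_monotone hmono (fun M => hdiv M)
  have hlow : ∀ N : ℕ, c * ∑ n ∈ Finset.Icc 1 N, Ψ n ≤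
      ∑ n ∈ Finset.Icc 1 N, (Nat.totient n : ℝ) / n * Ψ n := by
    intro N
    rw [Finset.mul_sum]
    apply Finset.sum_le_sum
    intro n _
    by_cases hn : Ψ n = 0
    · rw [hn]
      simp
    · exact mul_le_mul_of_nonneg_right (hs n hn) (h0 n)
  have hup : ∀ N : ℕ, ∑ n ∈ Finset.Icc 1 N, (Nat.totient n : ℝ) / n * Ψ n ≤
      ∑ n ∈ Finset.Icc 1 N, Ψ n := by
    intro N
    apply Finset.sum_le_sum
    intro n hn
    rw [Finset.mem_Icc] at hn
    have hn0 : (0:ℝ) < n := by exact_mod_cast hn.1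
    have : (Nat.totient n : ℝ) / n ≤ 1 := by
      rw [div_le_one hn0]
      exact_mod_cast Nat.totient_le n
    calc (Nat.totient n : ℝ) / n * Ψ n ≤ 1 * Ψ n := mul_le_mul_of_nonneg_right this (h0 n)
      _ = Ψ n := one_mul _
  refine ⟨?_, ?_⟩
  · exact tendsto_atTop_mono hlow (ht.const_mul_atTop hc)
  · unfold H2
    have hev : ∀ᶠ N : ℕ in atTop, c ≤ (∑ n ∈ Finset.Icc 1 N, (Nat.totient n : ℝ) / n * Ψ n) *
        (∑ n ∈ Finset.Icc 1 N, Ψ n)⁻¹ := by
      filter_upwards [ht.eventually_gt_atTop 0] with N hN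
      rw [← div_eq_mul_inv, le_div_iff₀ hN]
      exact hlow N
    have hbd : IsBoundedUnder (· ≤ ·) atTop (fun N : ℕ =>
        (∑ n ∈ Finset.Icc 1 N, (Nat.totient n : ℝ) / n * Ψ n) *
        (∑ n ∈ Finset.Icc 1 N, Ψ n)⁻¹) := by
      refine ⟨1, ?_⟩
      rw [eventually_map]
      filter_upwards [ht.eventually_gt_atTop 0] with N hN
      rw [← div_eq_mul_inv, div_le_one hN]
      exact hup N
    exact lt_of_lt_of_le hc (le_limsup_of_frequently_le hev.frequently hbd)

theorem final (h1 : MainG) (h2 : F.MainF) : FinalStmt := by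
  classical
  intro δ Φ Ψ ε hε h0 hle hH1 hH2 hev
  obtain ⟨c, hc, hdiv⟩ := diverge Ψ h0 hH1 hH2
  have hΦ0 : ∀ n, 0 ≤ Φ n := fun n => (h0 n).trans (hle n)
  set A : ℕ → Prop := fun n => c ≤ (Nat.totient n : ℝ) / n ∧
    Ψ n ≤ Real.exp (-(1000 * (Real.log (Real.log n)) ^ 2)) with hA
  by_cases hcase : ∀ M : ℝ, ∃ N : ℕ, M ≤ ∑ n ∈ Finset.Icc 1 N, (if A n then Ψ n else 0)
  · -- the quickly decaying part diverges
    have h12 := h12_of_sum (fun n => if A n then Ψ n else 0) c hc
      (by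
        intro n
        split_ifs
        · exact h0 n
        · exact le_refl _)
      (by
        intro n hn
        by_cases h : A n
        · exact h.1
        · rw [if_neg h] at hn
          exact absurd rfl hn)
      hcase
    have hconcl := h2 δ (fun n => if A n then Ψ n else 0)
      (by
        intro n
        split_ifs
        · exact h0 n
        · exact le_refl _) h12.1 h12.2
      (by
        filter_upwards with n
        split_ifs with h
        · exact h.2
        · exact (Real.exp_pos _).le)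
    refine concl_mono δ Φ _ ?_ hconcl
    intro n
    split_ifs
    · exact hle n
    · exact hΦ0 n
  · push Not at hcase
    obtain ⟨M0, hM0⟩ := hcase
    obtain ⟨n0, hn0⟩ := eventually_atTop.mp hev
    apply h1 δ Φ ε c hε hc hΦ0
    intro M
    obtain ⟨N, hN⟩ := hdiv (M + M0 + ∑ n ∈ Finset.range n0, Ψ n)
    refine ⟨N, ?_⟩
    have hwt0 : ∀ n, 0 ≤ Φ n * (Real.log (2 + 1 / Φ n)) ^ (-ε) := by
      intro n
      have h5 : 0 ≤ 1 / Φ n := div_nonneg zero_le_one (hΦ0 n)
      have h6 : 0 ≤ Real.log (2 + 1 / Φ n) := Real.log_nonneg (by linarith)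
      exact mul_nonneg (hΦ0 n) (Real.rpow_nonneg h6 _)
    have hpt : ∀ n ∈ Finset.Icc 1 N, (if c ≤ (Nat.totient n : ℝ) / n ∧ 0 < Ψ n then Ψ n else 0) ≤
        (if c ≤ (Nat.totient n : ℝ) / n then Φ n * (Real.log (2 + 1 / Φ n)) ^ (-ε) else 0) +
        (if A n then Ψ n else 0) + (if n ∈ Finset.range n0 then Ψ n else 0) := by
      intro n _
      have a1 : 0 ≤ (if c ≤ (Nat.totient n : ℝ) / n then
          Φ n * (Real.log (2 + 1 / Φ n)) ^ (-ε) else 0) := by
        split_ifs
        · exact hwt0 n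
        · exact le_refl _
      have a2 : 0 ≤ (if A n then Ψ n else 0) := by
        split_ifs
        · exact h0 n
        · exact le_refl _
      have a3 : 0 ≤ (if n ∈ Finset.range n0 then Ψ n else 0) := by
        split_ifs
        · exact h0 n
        · exact le_refl _
      by_cases hn : c ≤ (Nat.totient n : ℝ) / n ∧ 0 < Ψ n
      · rw [if_pos hn]
        by_cases hr : n ∈ Finset.range n0
        · rw [if_pos hr] at a3 ⊢
          linarith
        by_cases hAn : A n
        · rw [if_pos hAn] at a2 ⊢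
          linarith
        rw [if_pos hn.1] at a1 ⊢
        have hn1 : n0 ≤ n := by
          rw [Finset.mem_range] at hr
          omega
        have hno : ¬ Ψ n ≤ Real.exp (-(1000 * (Real.log (Real.log n)) ^ 2)) :=
          fun h => hAn ⟨hn.1, h⟩
        have h3 := (hn0 n hn1).resolve_left hno
        have h4 : Φ n / (Real.log (3 + 1 / Φ n)) ^ ε ≤
            Φ n * (Real.log (2 + 1 / Φ n)) ^ (-ε) := by
          have h5 : 0 ≤ 1 / Φ n := div_nonneg zero_le_one (hΦ0 n)
          have h6 : 0 < Real.log (2 + 1 / Φ n) := Real.log_pos (by linarith)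
          rw [div_eq_mul_inv, ← Real.rpow_neg (Real.log_nonneg (by linarith))]
          apply mul_le_mul_of_nonneg_left _ (hΦ0 n)
          apply Real.rpow_le_rpow_of_nonpos h6 _ (by linarith)
          exact Real.log_le_log (by linarith) (by linarith)
        linarith
      · rw [if_neg hn]
        linarith
    have hsum := Finset.sum_le_sum hpt
    rw [Finset.sum_add_distrib, Finset.sum_add_distrib, ← Finset.sum_filter,
      ← Finset.sum_filter] at hsum
    have h7 : ∑ n ∈ Finset.Icc 1 N, (if n ∈ Finset.range n0 then Ψ n else 0) ≤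
        ∑ n ∈ Finset.range n0, Ψ n := by
      rw [← Finset.sum_filter]
      apply Finset.sum_le_sum_of_subset_of_nonneg
      · intro n hn
        exact (Finset.mem_filter.mp hn).2
      · intro n _ _
        exact h0 n
    have h8 := hM0 N
    linarith

end Pool.Agent.MP_0863b8.G
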