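import Pool.Agent.Work.MP_0863b8_nt.Bd.B03
import Pool.Agent.Work.MP_0863b8_nt.Bd.B02

/-!
MP_0863b8_nt, item G15: the extra divergence theorem.
-/

set_option autoImplicit false

namespace Pool.Agent.MP_0863b8.G

open MeasureTheory Filter

private theorem wt_nonneg (ε p : ℝ) (h0 : 0 ≤ p) (h1 : p ≤ 1 / 8) : 0 ≤ wt ε p := by
  unfold wt
  apply Real.rpow_nonneg
  rcases h0.eq_or_lt with h | h
  · rw [← h]
    simp
  · apply Real.log_nonneg
    rw [le_div_iff₀ h]
    linarith

theorem mainG (h1 : SecondG) (h2 : BCG) (h3 : BlocksG) : MainG := by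
  classical
  intro δ Φ ε c hε hc h0 hdiv
  choose S hSmem hSlo hShi using h3 Φ ε c hε h0 hdiv
  set ψ : ℕ → ℝ := fun n => min (Φ n) (1/8) with hψ
  have hψ0 : ∀ n, 0 ≤ ψ n := fun n => le_min (h0 n) (by norm_num)
  have hψ8 : ∀ n, ψ n ≤ 1/8 := fun n => min_le_right _ _
  obtain ⟨C, hC, hsec⟩ := h1 c ε hc hε
  set E : ℕ → Set ℝ := fun n => if n = 0 then ∅ else BB δ ψ n with hE
  have hEpos : ∀ n, 0 < n → E n = BB δ ψ n := by
    intro n hn
    simp only [hE]
    rw [if_neg hn.ne']
  have hEm : ∀ n, MeasurableSet (E n) := by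
    intro n
    by_cases hn : n = 0
    · simp [hE, hn]
    · rw [hEpos n (Nat.pos_of_ne_zero hn)]
      exact (single δ (ψ n) n _ _ (Nat.pos_of_ne_zero hn) (hψ0 n)).1
  have hEsub : ∀ n, E n ⊆ Set.Ico 0 1 := by
    intro n
    by_cases hn : n = 0
    · simp [hE, hn]
    · rw [hEpos n (Nat.pos_of_ne_zero hn)]
      intro β hβ
      exact ⟨hβ.1, hβ.2.1⟩
  have hψS : ∀ t, ∀ n ∈ S t, 0 < ψ n := by
    intro t n hn
    exact lt_min (hSmem t n hn).2.2.2 (by norm_num)
  have hw : ∀ n, 0 ≤ wt ε (ψ n) := fun n => wt_nonneg ε _ (hψ0 n) (hψ8 n)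
  have hbc := h2 S (fun n => wt ε (ψ n)) E C (c / 2) (by positivity) hw hEm hEsub
    (by
      intro t
      have := hsec δ ψ (S t)
        (fun n hn => ⟨(hSmem _ n hn).2.1, (hSmem _ n hn).2.2.1, hψS _ n hn, hψ8 n⟩)
        (hShi _)
      refine le_trans (le_of_eq ?_) this
      apply Finset.sum_congr rfl
      intro x hx
      apply Finset.sum_congr rfl
      intro y hy
      rw [hEpos x (hSmem _ x hx).2.1, hEpos y (hSmem _ y hy).2.1])
    (by
      intro a b ha hab hb
      obtain ⟨n0, hn0⟩ := first_moment c a b hc ha hab hb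
      filter_upwards [eventually_ge_atTop n0] with t ht
      calc c / 2 * (b - a) = 1 / 2 * (c * (b - a)) := by ring
        _ ≤ (∑ n ∈ S t, wt ε (ψ n) * ψ n) * (c * (b - a)) := by
            apply mul_le_mul_of_nonneg_right (hSlo _)
            have : 0 < b - a := by linarith
            positivity
        _ = ∑ n ∈ S t, wt ε (ψ n) * (c * ψ n * (b - a)) := by
            rw [Finset.sum_mul]
            apply Finset.sum_congr rfl
            intro n _
            ring
        _ ≤ ∑ v ∈ S t, wt ε (ψ v) * (volume (E v ∩ Set.Ioo a b)).toReal := by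
            apply Finset.sum_le_sum
            intro n hn
            obtain ⟨m1, m2, m3, m4⟩ := hSmem _ n hn
            rw [hEpos n m2]
            apply mul_le_mul_of_nonneg_left _ (hw n)
            have hτ : 0 < tau (ψ n) := by
              unfold tau
              apply Real.sqrt_pos.mpr
              have := hψS _ n hn
              linarith
            exact hn0 n (le_trans ht m1) m3 δ (ψ n) _ _
              (hψS _ n hn) (hψ8 n) (qmin_spec δ (tau (ψ n)) hτ).2.2.2)
  apply ae_of_unit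
  filter_upwards [hbc] with β hβ
  rw [Set.infinite_iff_exists_gt]
  intro M
  have hβ' := (hβ.and_eventually (eventually_gt_atTop M)).exists
  obtain ⟨t, ⟨v, hv, hβv⟩, htM⟩ := hβ'
  obtain ⟨m1, m2, m3, m4⟩ := hSmem _ v hv
  refine ⟨v, ⟨m2, ?_⟩, lt_of_lt_of_le htM m1⟩
  rw [hEpos v m2] at hβv
  obtain ⟨-, -, r, -, hr⟩ := hβv
  calc nd (v * β - δ) ≤ |(v:ℝ) * β - δ - r| := nd_le_abs _ r
    _ < ψ v := hr
    _ ≤ Φ v := min_le_left _ _

end Pool.Agent.MP_0863b8.G
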