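import Pool.Agent.Work.MP_0863b8_nt.Bd.B03
import Pool.Agent.Work.MP_0863b8_nt.F.NewPair

namespace Pool.Agent.MP_0863b8.G

open MeasureTheory Filter
open F (ms en share lv)

private theorem pair_core (γ C1 CT : ℝ) (hg1 : 1/2 < γ) (hg2 : γ ≤ 5/9) (hCT : 0 < CT)
    (hT : ∀ (V W : Finset ℕ) (L : ℝ), 0 ≤ L →
      (∀ v ∈ V, 0 < v ∧ rp v ≤ C1) → (∀ w ∈ W, 0 < w ∧ rp w ≤ C1) →
      en Set.univ V W L Set.univ ≤ CT * potG γ L V W)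
    (ψ : ℕ → ℝ) (k l i : ℕ) (V W : Finset ℕ)
    (hV : ∀ v ∈ V, 0 < v ∧ rp v ≤ C1 ∧ 0 < ψ v ∧ lv ψ k v)
    (hW : ∀ w ∈ W, 0 < w ∧ rp w ≤ C1 ∧ 0 < ψ w ∧ lv ψ l w)
    (P : Finset (ℕ × ℕ))
    (hP : ∀ z ∈ P, z.1 ∈ V ∧ z.2 ∈ W ∧ (2:ℝ) ^ ((k:ℝ) + 1 - i) / 2 < ((z.1.lcm z.2 : ℕ) : ℝ) ∧
        ((z.1.lcm z.2 : ℕ) : ℝ) ≤ (2:ℝ) ^ ((k:ℝ) + 1 - i)) :
    ∑ z ∈ P, ψ z.2 / (z.2 / z.1.gcd z.2 : ℕ) ≤
      (4 * CT) * (2:ℝ) ^ ((2 * γ - 1) * i) * (2:ℝ) ^ (-((1 - γ) * ((l:ℝ) - k))) *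
      ((∑ v ∈ V, ψ v) * (∑ w ∈ W, ψ w)) ^ γ := by
  have two0 : (0:ℝ) < 2 := by norm_num
  have hL : (0:ℝ) < (2:ℝ) ^ ((k:ℝ) + 1 - i) := Real.rpow_pos_of_pos two0 _
  set L : ℝ := (2:ℝ) ^ ((k:ℝ) + 1 - i) with hLdef
  have hX : 0 ≤ ∑ v ∈ V, ψ v := Finset.sum_nonneg (fun v hv => (hV v hv).2.2.1.le)
  have hY : 0 ≤ ∑ w ∈ W, ψ w := Finset.sum_nonneg (fun w hw => (hW w hw).2.2.1.le)
  set X : ℝ := ∑ v ∈ V, ψ v with hXdef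
  set Y : ℝ := ∑ w ∈ W, ψ w with hYdef
  have hcoef : 0 ≤ 2 * (1/2 : ℝ) ^ l / L := by positivity
  have hγ0 : 0 ≤ γ := by linarith
  -- step 1
  have s1 : ∑ z ∈ P, ψ z.2 / ((z.2 / z.1.gcd z.2 : ℕ) : ℝ) ≤
      (2 * (1/2 : ℝ) ^ l / L) * ∑ z ∈ P, ((z.1:ℝ) * z.2) := by
    rw [Finset.mul_sum]
    apply Finset.sum_le_sum
    intro z hz
    obtain ⟨p1, p2, p3, p4⟩ := hP z hz
    exact F.np_term ψ z.1 z.2 l L (hV _ p1).1 (hW _ p2).1 hL (hW _ p2).2.2.2.2 p3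
  -- step 2
  have s2 : ∑ z ∈ P, ((z.1:ℝ) * z.2) ≤ en Set.univ V W L Set.univ := by
    unfold en
    apply Finset.sum_le_sum_of_subset_of_nonneg
    · intro z hz
      obtain ⟨p1, p2, p3, p4⟩ := hP z hz
      exact F.np_mem.mpr ⟨Finset.mem_product.mpr ⟨p1, p2⟩, p3, p4, Set.mem_univ _,
        fun p _ => Set.mem_univ p⟩
    · intro z _ _
      positivity
  have s3 := hT V W L hL.le (fun v hv => ⟨(hV v hv).1, (hV v hv).2.1⟩)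
    (fun w hw => ⟨(hW w hw).1, (hW w hw).2.1⟩)
  -- step 3
  have m1 := F.np_ms ψ k V (fun v hv => ⟨(hV v hv).1, (hV v hv).2.2.2⟩)
  have m2 := F.np_ms ψ l W (fun v hv => ⟨(hW v hv).1, (hW v hv).2.2.2⟩)
  have ms0 : ∀ U : Finset ℕ, 0 ≤ ms U := by
    intro U
    unfold ms
    apply Finset.sum_nonneg
    intro u _
    positivity
  have m3 : (ms V * ms W) ^ γ ≤
      (2:ℝ) ^ (γ * ((k:ℝ) + l + 2)) * (X * Y) ^ γ := by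
    have q1 : ms V * ms W ≤ (2:ℝ) ^ ((k:ℝ) + l + 2) * (X * Y) := by
      have q2 : (2:ℝ) ^ ((k:ℝ) + l + 2) = (2:ℝ) ^ (k + 1) * (2:ℝ) ^ (l + 1) := by
        rw [← Real.rpow_natCast, ← Real.rpow_natCast, ← Real.rpow_add two0]
        congr 1
        push_cast
        ring
      rw [q2]
      calc ms V * ms W ≤ ((2:ℝ) ^ (k + 1) * X) * ((2:ℝ) ^ (l + 1) * Y) := by
            apply mul_le_mul m1 m2 (ms0 W)
            positivity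
        _ = _ := by ring
    calc (ms V * ms W) ^ γ ≤ ((2:ℝ) ^ ((k:ℝ) + l + 2) * (X * Y)) ^ γ := by
          apply Real.rpow_le_rpow (mul_nonneg (ms0 V) (ms0 W)) q1 hγ0
      _ = _ := by
          rw [Real.mul_rpow (Real.rpow_nonneg two0.le _) (mul_nonneg hX hY), ← Real.rpow_mul two0.le]
          congr 2
          ring
  have hLp : 0 ≤ L ^ (2 * (1 - γ)) := Real.rpow_nonneg hL.le _
  have m4 : potG γ L V W ≤ L ^ (2 * (1 - γ)) *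
      ((2:ℝ) ^ (γ * ((k:ℝ) + l + 2)) * (X * Y) ^ γ) := by
    unfold potG
    exact mul_le_mul_of_nonneg_left m3 hLp
  calc ∑ z ∈ P, ψ z.2 / ((z.2 / z.1.gcd z.2 : ℕ) : ℝ)
      ≤ (2 * (1/2 : ℝ) ^ l / L) * ∑ z ∈ P, ((z.1:ℝ) * z.2) := s1
    _ ≤ (2 * (1/2 : ℝ) ^ l / L) * (CT * (L ^ (2 * (1 - γ)) *
      ((2:ℝ) ^ (γ * ((k:ℝ) + l + 2)) * (X * Y) ^ γ))) := by
        apply mul_le_mul_of_nonneg_left _ hcoef
        refine le_trans s2 (le_trans s3 ?_)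
        exact mul_le_mul_of_nonneg_left m4 hCT.le
    _ = ((2 * (1/2 : ℝ) ^ l / L) * L ^ (2 * (1 - γ)) * (2:ℝ) ^ (γ * ((k:ℝ) + l + 2))) *
        (CT * (X * Y) ^ γ) := by ring
    _ = ((2:ℝ) ^ (2:ℝ) * (2:ℝ) ^ ((2 * γ - 1) * i) * (2:ℝ) ^ (-((1 - γ) * ((l:ℝ) - k)))) *
        (CT * (X * Y) ^ γ) := by
        congr 1
        have e1 : (2 * (1/2 : ℝ) ^ l / L) = (2:ℝ) ^ (1 - (l:ℝ) - ((k:ℝ) + 1 - i)) := by
          rw [Real.rpow_sub two0, Real.rpow_sub two0, Real.rpow_one, Real.rpow_natCast, one_div,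
            inv_pow, hLdef]
          rfl
        have e2 : L ^ (2 * (1 - γ)) = (2:ℝ) ^ (((k:ℝ) + 1 - i) * (2 * (1 - γ))) := by
          rw [hLdef, ← Real.rpow_mul two0.le]
        rw [e1, e2, ← Real.rpow_add two0, ← Real.rpow_add two0, ← Real.rpow_add two0,
          ← Real.rpow_add two0]
        congr 1
        ring
    _ = _ := by
        have : (2:ℝ) ^ (2:ℝ) = 4 := by norm_num
        rw [this]
        ring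

theorem pair (h : TreeG) : PairG := by
  intro γ C1 hg1 hg2
  obtain ⟨CT, hCT, hT⟩ := h γ C1 hg1 hg2
  refine ⟨4 * CT, by positivity, ?_⟩
  intro ψ k l i V W hV hW
  refine pair_core γ C1 CT hg1 hg2 hCT hT ψ k l i V W hV hW _ ?_
  intro z hz
  obtain ⟨hz1, p3, p4⟩ := F.np_mem.mp hz
  obtain ⟨p1, p2⟩ := Finset.mem_product.mp hz1
  exact ⟨p1, p2, p3, p4⟩

end Pool.Agent.MP_0863b8.G
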