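import Pool.Agent.Work.MP_0863b8_nt.Bd.B03
import Pool.Agent.Work.MP_0863b8_nt.Bd.B02

/-!
MP_0863b8_nt, item G12: the weighted second moment.
-/

set_option autoImplicit false

namespace Pool.Agent.MP_0863b8.G

open MeasureTheory Filter
open F (ms en share lv)

/-- G12: the weighted second moment -/
theorem second (h1 : DeepG) (h2 : ShalG) (h3 : WtG) : SecondG := by
  classical
  intro c ε hc hε
  obtain ⟨Cd, hCd, hdeep⟩ := h1 c ε hc hε.le
  obtain ⟨Ch, hCh, hshal⟩ := h2 c ε hc hε
  refine ⟨6 + 2 * (48 + 6 * (1 / c) + 6 * (50 * (1 / c)) + 6 * (Cd + Ch)), by positivity, ?_⟩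
  intro δ ψ S hS hsum
  have hρ1 : ∀ n ∈ S, ∃ k : ℕ, lv ψ k n := by
    intro n hn
    obtain ⟨hn0, -, hψ, hψ8⟩ := hS n hn
    have hnR : (1:ℝ) ≤ n := by exact_mod_cast hn0
    apply exists_nat_pow_near_of_lt_one (by positivity) _ (by norm_num) (by norm_num)
    rw [div_le_one (by linarith)]
    linarith
  choose! lev hlev using hρ1
  have hDeep := hdeep δ ψ S lev hS hsum hlev
  have hShal := hshal ψ S lev hS hsum hlev
  set W : ℕ → ℝ := fun n => wt ε (ψ n) with hW
  have hW0 : ∀ n ∈ S, 0 < W n := fun n hn =>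
    (h3 ε ψ (lev n) n hε.le (hS n hn).1 (hS n hn).2.2.1 (hS n hn).2.2.2 (hlev n hn)).2.1
  have hW1 : ∀ n ∈ S, W n ≤ 1 := fun n hn =>
    (h3 ε ψ (lev n) n hε.le (hS n hn).1 (hS n hn).2.2.1 (hS n hn).2.2.2 (hlev n hn)).2.2.1
  set ov : ℕ → ℕ → ℝ := fun x y => (volume (BB δ ψ x ∩ BB δ ψ y)).toReal with hov
  have hovs : ∀ x y, ov x y = ov y x := by
    intro x y
    simp only [hov]
    rw [Set.inter_comm]
  set F : ℕ → ℕ → ℝ := fun x y => 48 * (ψ x * ψ y) +
      (if x / x.gcd y = 1 then 6 * (ψ y / ((y / x.gcd y : ℕ) : ℝ)) else 0) +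
      (if Exc δ (ψ x) (x / x.gcd y) (y / x.gcd y) then
        6 * (ψ x / ((x / x.gcd y : ℕ) : ℝ)) else 0) +
      (if NSP δ lev (x, y) then 6 * (ψ y / ((y / x.gcd y : ℕ) : ℝ)) else 0) with hF
  have hF0 : ∀ x ∈ S, ∀ y ∈ S, 0 ≤ F x y := by
    intro x hx y hy
    have := (hS x hx).2.2.1
    have := (hS y hy).2.2.1
    simp only [hF]
    have n2 : 0 ≤ (if x / x.gcd y = 1 then 6 * (ψ y / ((y / x.gcd y : ℕ) : ℝ)) else 0) := by
      split_ifs <;> positivity
    have n3 : 0 ≤ (if Exc δ (ψ x) (x / x.gcd y) (y / x.gcd y) then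
        6 * (ψ x / ((x / x.gcd y : ℕ) : ℝ)) else 0) := by
      split_ifs <;> positivity
    have n4 : 0 ≤ (if NSP δ lev (x, y) then
        6 * (ψ y / ((y / x.gcd y : ℕ) : ℝ)) else 0) := by
      split_ifs <;> positivity
    positivity
  have hpt : ∀ x ∈ S, ∀ y ∈ S, ov x y ≤ (if x = y then 6 * ψ x else 0) + F x y + F y x := by
    intro x hx y hy
    obtain ⟨hx0, hxc, hψx, hψx8⟩ := hS x hx
    obtain ⟨hy0, hyc, hψy, hψy8⟩ := hS y hy
    by_cases hxy : x = y
    · rw [if_pos hxy]
      subst hxy
      have e : ov x x = (volume (BB δ ψ x)).toReal := by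
        simp only [hov, Set.inter_self]
      have := (single δ (ψ x) x (qmin δ (tau (ψ x))) (round ((qmin δ (tau (ψ x)) : ℝ) * δ)) hx0
        hψx.le).2
      rw [e]
      have h3 := hF0 x hx x hx
      change (volume (BB δ ψ x)).toReal ≤ _ at this
      linarith
    · rw [if_neg hxy]
      rcases le_total (ψ y / y) (ψ x / x) with hρ | hρ
      · have := pair_bound overlap classifyStmt δ ψ lev x y hx0 hy0 hxy hψx hψx8 hψy hρ
          (hlev x hx) (hlev y hy)
        have h3 := hF0 y hy x hx
        change ov x y ≤ F x y at this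
        linarith
      · have := pair_bound overlap classifyStmt δ ψ lev y x hy0 hx0 (Ne.symm hxy) hψy hψy8 hψx
          hρ (hlev y hy) (hlev x hx)
        have h3 := hF0 x hx y hy
        change ov y x ≤ F y x at this
        rw [hovs x y]
        linarith
  have hFsum : ∑ x ∈ S, ∑ y ∈ S, W x * W y * F x y ≤
      48 + 6 * (1 / c) + 6 * (50 * (1 / c)) + 6 * (Cd + Ch) := by
    have s0 : 0 ≤ ∑ n ∈ S, W n * ψ n :=
      Finset.sum_nonneg (fun n hn => mul_nonneg (hW0 n hn).le (hS n hn).2.2.1.le)
    have s1 : ∑ x ∈ S, ∑ y ∈ S, W x * W y * (48 * (ψ x * ψ y)) ≤ 48 := by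
      have : ∑ x ∈ S, ∑ y ∈ S, W x * W y * (48 * (ψ x * ψ y)) =
          48 * ((∑ n ∈ S, W n * ψ n) * (∑ n ∈ S, W n * ψ n)) := by
        rw [Finset.sum_mul_sum, Finset.mul_sum]
        apply Finset.sum_congr rfl
        intro x _
        rw [Finset.mul_sum]
        apply Finset.sum_congr rfl
        intro y _
        ring
      rw [this]
      nlinarith
    have s2 : ∑ x ∈ S, ∑ y ∈ S, W x * W y *
        (if x / x.gcd y = 1 then 6 * (ψ y / ((y / x.gcd y : ℕ) : ℝ)) else 0) ≤ 6 * (1 / c) := by
      rw [Finset.sum_comm]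
      calc ∑ y ∈ S, ∑ x ∈ S, W x * W y *
          (if x / x.gcd y = 1 then 6 * (ψ y / ((y / x.gcd y : ℕ) : ℝ)) else 0)
          ≤ ∑ y ∈ S, W y * (6 * (ψ y * (1 / c))) := by
            apply Finset.sum_le_sum
            intro y hy
            have hψy := (hS y hy).2.2.1
            calc ∑ x ∈ S, W x * W y *
                (if x / x.gcd y = 1 then 6 * (ψ y / ((y / x.gcd y : ℕ) : ℝ)) else 0)
                ≤ ∑ x ∈ S, W y *
                (if x / x.gcd y = 1 then 6 * (ψ y / ((y / x.gcd y : ℕ) : ℝ)) else 0) := by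
                  apply Finset.sum_le_sum
                  intro x hx
                  have n2 : 0 ≤ (if x / x.gcd y = 1 then
                      6 * (ψ y / ((y / x.gcd y : ℕ) : ℝ)) else 0) := by
                    split_ifs <;> positivity
                  apply mul_le_mul_of_nonneg_right _ n2
                  have h4 := hW1 x hx
                  have h5 := hW0 y hy
                  nlinarith
              _ = W y * (6 * ∑ x ∈ S.filter (fun x => x / x.gcd y = 1),
                  ψ y / ((y / x.gcd y : ℕ) : ℝ)) := by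
                  rw [← Finset.mul_sum, ← Finset.sum_filter, ← Finset.mul_sum]
              _ ≤ W y * (6 * (ψ y * (1 / c))) := by
                  apply mul_le_mul_of_nonneg_left _ (hW0 y hy).le
                  apply mul_le_mul_of_nonneg_left _ (by norm_num)
                  exact sum_dvd_pairs S ψ c hc divsum hS y hy
        _ = 6 * (1 / c) * ∑ y ∈ S, W y * ψ y := by
            rw [Finset.mul_sum]
            apply Finset.sum_congr rfl
            intro y _
            ring
        _ ≤ 6 * (1 / c) * 1 := by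
            apply mul_le_mul_of_nonneg_left hsum (by positivity)
        _ = 6 * (1 / c) := by ring
    have s3 : ∑ x ∈ S, ∑ y ∈ S, W x * W y *
        (if Exc δ (ψ x) (x / x.gcd y) (y / x.gcd y) then
        6 * (ψ x / ((x / x.gcd y : ℕ) : ℝ)) else 0) ≤ 6 * (50 * (1 / c)) := by
      calc ∑ x ∈ S, ∑ y ∈ S, W x * W y *
          (if Exc δ (ψ x) (x / x.gcd y) (y / x.gcd y) then
          6 * (ψ x / ((x / x.gcd y : ℕ) : ℝ)) else 0)
          ≤ ∑ x ∈ S, W x * (6 * (50 * (ψ x * (1 / c)))) := by
            apply Finset.sum_le_sum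
            intro x hx
            have hψx := (hS x hx).2.2.1
            calc ∑ y ∈ S, W x * W y *
                (if Exc δ (ψ x) (x / x.gcd y) (y / x.gcd y) then
                6 * (ψ x / ((x / x.gcd y : ℕ) : ℝ)) else 0)
                ≤ ∑ y ∈ S, W x *
                (if Exc δ (ψ x) (x / x.gcd y) (y / x.gcd y) then
                6 * (ψ x / ((x / x.gcd y : ℕ) : ℝ)) else 0) := by
                  apply Finset.sum_le_sum
                  intro y hy
                  have n3 : 0 ≤ (if Exc δ (ψ x) (x / x.gcd y) (y / x.gcd y) then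
                      6 * (ψ x / ((x / x.gcd y : ℕ) : ℝ)) else 0) := by
                    split_ifs <;> positivity
                  apply mul_le_mul_of_nonneg_right _ n3
                  have h4 := hW1 y hy
                  have h5 := hW0 x hx
                  nlinarith
              _ = W x * (6 * ∑ y ∈ S.filter
                  (fun y => Exc δ (ψ x) (x / x.gcd y) (y / x.gcd y)),
                  ψ x / ((x / x.gcd y : ℕ) : ℝ)) := by
                  rw [← Finset.mul_sum, ← Finset.sum_filter, ← Finset.mul_sum]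
              _ ≤ W x * (6 * (50 * (ψ x * (1 / c)))) := by
                  apply mul_le_mul_of_nonneg_left _ (hW0 x hx).le
                  apply mul_le_mul_of_nonneg_left _ (by norm_num)
                  exact sum_exc_pairs S δ ψ c hc mult divsum hS x hx
        _ = 6 * (50 * (1 / c)) * ∑ x ∈ S, W x * ψ x := by
            rw [Finset.mul_sum]
            apply Finset.sum_congr rfl
            intro y _
            ring
        _ ≤ 6 * (50 * (1 / c)) * 1 := by
            apply mul_le_mul_of_nonneg_left hsum (by positivity)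
        _ = 6 * (50 * (1 / c)) := by ring
    have s4 : ∑ x ∈ S, ∑ y ∈ S, W x * W y *
        (if NSP δ lev (x, y) then 6 * (ψ y / ((y / x.gcd y : ℕ) : ℝ)) else 0) ≤
        6 * (Cd + Ch) := by
      rw [← Finset.sum_product' S S (fun x y => W x * W y *
        (if NSP δ lev (x, y) then 6 * (ψ y / ((y / x.gcd y : ℕ) : ℝ)) else 0))]
      have hz0 : ∀ z ∈ S ×ˢ S, 0 ≤ W z.1 * W z.2 * (ψ z.2 / ((z.2 / z.1.gcd z.2 : ℕ) : ℝ)) := by
        intro z hz
        rw [Finset.mem_product] at hz
        have g1 := hW0 z.1 hz.1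
        have g2 := hW0 z.2 hz.2
        have g3 := (hS z.2 hz.2).2.2.1
        positivity
      calc ∑ z ∈ S ×ˢ S, W z.1 * W z.2 * (if NSP δ lev (z.1, z.2) then
          6 * (ψ z.2 / ((z.2 / z.1.gcd z.2 : ℕ) : ℝ)) else 0)
          ≤ ∑ z ∈ S ×ˢ S, (6 * (if DeepP δ lev z then
              W z.1 * W z.2 * (ψ z.2 / ((z.2 / z.1.gcd z.2 : ℕ) : ℝ)) else 0) +
            6 * (if ShalP lev z then
              W z.1 * W z.2 * (ψ z.2 / ((z.2 / z.1.gcd z.2 : ℕ) : ℝ)) else 0)) := by
            apply Finset.sum_le_sum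
            intro z hz
            have g0 := hz0 z hz
            by_cases hN : NSP δ lev (z.1, z.2)
            · rw [if_pos hN]
              have m1 : 0 ≤ (if DeepP δ lev z then
                  W z.1 * W z.2 * (ψ z.2 / ((z.2 / z.1.gcd z.2 : ℕ) : ℝ)) else 0) := by
                split_ifs
                · exact g0
                · exact le_rfl
              have m2 : 0 ≤ (if ShalP lev z then
                  W z.1 * W z.2 * (ψ z.2 / ((z.2 / z.1.gcd z.2 : ℕ) : ℝ)) else 0) := by
                split_ifs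
                · exact g0
                · exact le_rfl
              rcases lt_or_ge (dp lev z * (z.1.lcm z.2)) (2 ^ (lev z.1)) with hL | hL
              · have : DeepP δ lev z := ⟨hN, hL⟩
                rw [if_pos this] at m1 ⊢
                linarith
              · have : ShalP lev z := ⟨hN.2.1, hN.2.2.1, hL⟩
                rw [if_pos this] at m2 ⊢
                linarith
            · rw [if_neg hN]
              have m1 : 0 ≤ (if DeepP δ lev z then
                  W z.1 * W z.2 * (ψ z.2 / ((z.2 / z.1.gcd z.2 : ℕ) : ℝ)) else 0) := by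
                split_ifs
                · exact g0
                · exact le_rfl
              have m2 : 0 ≤ (if ShalP lev z then
                  W z.1 * W z.2 * (ψ z.2 / ((z.2 / z.1.gcd z.2 : ℕ) : ℝ)) else 0) := by
                split_ifs
                · exact g0
                · exact le_rfl
              linarith
        _ = 6 * (∑ z ∈ (S ×ˢ S).filter (fun z => DeepP δ lev z),
              W z.1 * W z.2 * (ψ z.2 / ((z.2 / z.1.gcd z.2 : ℕ) : ℝ)) +
            ∑ z ∈ (S ×ˢ S).filter (fun z => ShalP lev z),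
              W z.1 * W z.2 * (ψ z.2 / ((z.2 / z.1.gcd z.2 : ℕ) : ℝ))) := by
            rw [Finset.sum_add_distrib, ← Finset.mul_sum, ← Finset.mul_sum, Finset.sum_filter,
              Finset.sum_filter]
            ring
        _ ≤ 6 * (Cd + Ch) := by
            have q1 : ∑ z ∈ (S ×ˢ S).filter (fun z => DeepP δ lev z),
              W z.1 * W z.2 * (ψ z.2 / ((z.2 / z.1.gcd z.2 : ℕ) : ℝ)) ≤ Cd := hDeep
            have q2 : ∑ z ∈ (S ×ˢ S).filter (fun z => ShalP lev z),
              W z.1 * W z.2 * (ψ z.2 / ((z.2 / z.1.gcd z.2 : ℕ) : ℝ)) ≤ Ch := hShal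
            linarith
    calc ∑ x ∈ S, ∑ y ∈ S, W x * W y * F x y = ∑ x ∈ S, ∑ y ∈ S, W x * W y * (48 * (ψ x * ψ y)) +
        ∑ x ∈ S, ∑ y ∈ S, W x * W y *
        (if x / x.gcd y = 1 then 6 * (ψ y / ((y / x.gcd y : ℕ) : ℝ)) else 0) +
        ∑ x ∈ S, ∑ y ∈ S, W x * W y *
        (if Exc δ (ψ x) (x / x.gcd y) (y / x.gcd y) then
        6 * (ψ x / ((x / x.gcd y : ℕ) : ℝ)) else 0) +
        ∑ x ∈ S, ∑ y ∈ S, W x * W y *
        (if NSP δ lev (x, y) then 6 * (ψ y / ((y / x.gcd y : ℕ) : ℝ)) else 0) := by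
          simp only [hF, mul_add, Finset.sum_add_distrib]
      _ ≤ _ := by linarith
  calc ∑ x ∈ S, ∑ y ∈ S, wt ε (ψ x) * wt ε (ψ y) *
        (volume (BB δ ψ x ∩ BB δ ψ y)).toReal
      = ∑ x ∈ S, ∑ y ∈ S, W x * W y * ov x y := rfl
    _ ≤ ∑ x ∈ S, ∑ y ∈ S, W x * W y * ((if x = y then 6 * ψ x else 0) + F x y + F y x) := by
        apply Finset.sum_le_sum
        intro x hx
        apply Finset.sum_le_sum
        intro y hy
        exact mul_le_mul_of_nonneg_left (hpt x hx y hy)
          (mul_nonneg (hW0 x hx).le (hW0 y hy).le)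
    _ = ∑ x ∈ S, ∑ y ∈ S, W x * W y * (if x = y then 6 * ψ x else 0) +
        ∑ x ∈ S, ∑ y ∈ S, W x * W y * F x y + ∑ x ∈ S, ∑ y ∈ S, W x * W y * F y x := by
        simp only [mul_add, Finset.sum_add_distrib]
    _ = ∑ x ∈ S, W x * W x * (6 * ψ x) + 2 * ∑ x ∈ S, ∑ y ∈ S, W x * W y * F x y := by
        have e1 : ∑ x ∈ S, ∑ y ∈ S, W x * W y * (if x = y then 6 * ψ x else 0) =
            ∑ x ∈ S, W x * W x * (6 * ψ x) := by
          apply Finset.sum_congr rfl
          intro x hx
          simp only [mul_ite, mul_zero]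
          rw [Finset.sum_ite_eq, if_pos hx]
        have e2 : ∑ x ∈ S, ∑ y ∈ S, W x * W y * F y x =
            ∑ x ∈ S, ∑ y ∈ S, W x * W y * F x y := by
          rw [Finset.sum_comm]
          apply Finset.sum_congr rfl
          intro x _
          apply Finset.sum_congr rfl
          intro y _
          ring
        rw [e1, e2]
        ring
    _ ≤ 6 * 1 + 2 * (48 + 6 * (1 / c) + 6 * (50 * (1 / c)) + 6 * (Cd + Ch)) := by
        have : ∑ x ∈ S, W x * W x * (6 * ψ x) ≤ 6 * 1 := by
          calc ∑ x ∈ S, W x * W x * (6 * ψ x) ≤ ∑ x ∈ S, 6 * (W x * ψ x) := by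
                apply Finset.sum_le_sum
                intro x hx
                have g1 := hW0 x hx
                have g2 := hW1 x hx
                have g3 := (hS x hx).2.2.1
                have g4 : 0 < W x * ψ x := mul_pos g1 g3
                nlinarith
            _ = 6 * ∑ x ∈ S, W x * ψ x := by rw [Finset.mul_sum]
            _ ≤ 6 * 1 := mul_le_mul_of_nonneg_left hsum (by norm_num)
        linarith
    _ = _ := by ring

end Pool.Agent.MP_0863b8.G
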