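import Pool.Agent.Work.MP_0863b8_nt.Bd.B03

/-!
MP_0863b8_nt, item G11: the shallow pairs.
-/

set_option autoImplicit false

namespace Pool.Agent.MP_0863b8.G

open MeasureTheory Filter

private theorem shal_w (ε w : ℝ) (σ : ℕ) (hε : 0 ≤ ε) (hσ : 1 ≤ σ)
    (h1 : ((σ:ℝ) + 1) ^ (-ε) ≤ w) (h2 : w ≤ 3 ^ ε * (σ:ℝ) ^ (-ε)) :
    1 ≤ w * (2:ℝ) ^ (ε * ((Nat.log 2 σ : ℕ) + 1)) ∧
      w ≤ 3 ^ ε * (2:ℝ) ^ (-(ε * (Nat.log 2 σ : ℕ))) := by
  have hσR : (1:ℝ) ≤ σ := by exact_mod_cast hσ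
  have hlo : (2:ℝ) ^ ((Nat.log 2 σ : ℕ) : ℝ) ≤ σ := by
    rw [Real.rpow_natCast]
    exact_mod_cast Nat.pow_log_le_self 2 (by omega)
  have hup : (σ:ℝ) + 1 ≤ (2:ℝ) ^ (((Nat.log 2 σ : ℕ) : ℝ) + 1) := by
    have : σ < 2 ^ (Nat.log 2 σ + 1) := Nat.lt_pow_succ_log_self (by norm_num) σ
    have h3 : ((σ + 1 : ℕ) : ℝ) ≤ ((2 ^ (Nat.log 2 σ + 1) : ℕ) : ℝ) := by exact_mod_cast this
    push_cast at h3
    rw [← Real.rpow_natCast] at h3
    push_cast at h3
    exact h3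
  constructor
  · have h4 : ((2:ℝ) ^ (((Nat.log 2 σ : ℕ) : ℝ) + 1)) ^ (-ε) ≤ ((σ:ℝ) + 1) ^ (-ε) :=
      Real.rpow_le_rpow_of_nonpos (by positivity) hup (by linarith)
    rw [← Real.rpow_mul (by norm_num)] at h4
    have h5 : (0:ℝ) < (2:ℝ) ^ (ε * ((Nat.log 2 σ : ℕ) + 1)) := by positivity
    have h6 : (2:ℝ) ^ ((((Nat.log 2 σ : ℕ) : ℝ) + 1) * -ε) *
        (2:ℝ) ^ (ε * ((Nat.log 2 σ : ℕ) + 1)) = 1 := by
      rw [← Real.rpow_add (by norm_num)]
      rw [show (((Nat.log 2 σ : ℕ) : ℝ) + 1) * -ε + ε * (((Nat.log 2 σ : ℕ) : ℝ) + 1) = 0 by ring]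
      exact Real.rpow_zero _
    exact h6.symm.le.trans (mul_le_mul_of_nonneg_right (h4.trans h1) h5.le)
  · refine h2.trans (mul_le_mul_of_nonneg_left ?_ (by positivity))
    have h4 : (σ:ℝ) ^ (-ε) ≤ ((2:ℝ) ^ ((Nat.log 2 σ : ℕ) : ℝ)) ^ (-ε) :=
      Real.rpow_le_rpow_of_nonpos (by positivity) hlo (by linarith)
    rw [← Real.rpow_mul (by norm_num)] at h4
    refine h4.trans (le_of_eq ?_)
    congr 1
    ring

private theorem shal_dp (s t : ℕ) :
    (s + t + 1) ^ 28 ≤ 2 ^ (28 * (Nat.log 2 s + Nat.log 2 t) + 56) := by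
  have h1 : s < 2 ^ (Nat.log 2 s + 1) := Nat.lt_pow_succ_log_self (by norm_num) s
  have h2 : t < 2 ^ (Nat.log 2 t + 1) := Nat.lt_pow_succ_log_self (by norm_num) t
  have h3 : 2 ≤ 2 ^ (Nat.log 2 s + 1) := by
    calc 2 = 2 ^ 1 := rfl
      _ ≤ _ := Nat.pow_le_pow_right (by norm_num) (by omega)
  have h4 : 2 ≤ 2 ^ (Nat.log 2 t + 1) := by
    calc 2 = 2 ^ 1 := rfl
      _ ≤ _ := Nat.pow_le_pow_right (by norm_num) (by omega)
  have h5 : s + t + 1 ≤ 2 ^ (Nat.log 2 s + Nat.log 2 t + 2) := by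
    have h6 : 2 ^ (Nat.log 2 s + Nat.log 2 t + 2) =
        2 ^ (Nat.log 2 s + 1) * 2 ^ (Nat.log 2 t + 1) := by
      rw [← pow_add]
      congr 1
      ring
    rw [h6]
    generalize 2 ^ (Nat.log 2 s + 1) = A at *
    generalize 2 ^ (Nat.log 2 t + 1) = B at *
    nlinarith [Nat.mul_le_mul (Nat.sub_le_sub_right h3 1) (Nat.sub_le_sub_right h4 1),
      Nat.mul_le_mul h3 (le_refl B), Nat.mul_le_mul (le_refl A) h4]
  calc (s + t + 1) ^ 28 ≤ (2 ^ (Nat.log 2 s + Nat.log 2 t + 2)) ^ 28 :=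
        Nat.pow_le_pow_left h5 28
    _ = 2 ^ (28 * (Nat.log 2 s + Nat.log 2 t) + 56) := by
        rw [← pow_mul]
        congr 1
        ring

private theorem shal_num (ε η γ X Y a b c' Cn D w Z : ℝ) (u v i : ℕ)
    (hη : 0 < η) (hγ : 2 * γ - 1 = η) (hγ0 : 0 < γ) (hη2 : 56 * η ≤ c')
    (hc' : 2 * c' = ε * (1 - γ)) (hi : i ≤ 28 * (u + v) + 57)
    (hX : 0 ≤ X) (hY : 0 ≤ Y) (ha : 0 ≤ a) (hb : 0 ≤ b) (hCn : 0 < Cn) (hD : 0 ≤ D)
    (hw : w ≤ (3 ^ ε * (2:ℝ) ^ (-(ε * u))) * (3 ^ ε * (2:ℝ) ^ (-(ε * v))) * Z)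
    (hZ : Z ≤ Cn * (2:ℝ) ^ ((2 * γ - 1) * i) * D * (a * b) ^ γ)
    (haX : a ≤ (2:ℝ) ^ (ε * (u + 1)) * X) (hbY : b ≤ (2:ℝ) ^ (ε * (v + 1)) * Y) :
    w ≤ Cn * (3 ^ ε * 3 ^ ε * (2:ℝ) ^ (2 * ε * γ + 114 * η)) *
      ((2:ℝ) ^ (-(η * i)) * (2:ℝ) ^ (-(c' * ((u:ℝ) + v))) * D * (X * Y) ^ γ) := by
  have h1 : (a * b) ^ γ ≤ (2:ℝ) ^ (ε * γ * (u + v + 2)) * (X * Y) ^ γ := by
    have h2 : a * b ≤ (2:ℝ) ^ (ε * (u + v + 2)) * (X * Y) := by
      have h3 := mul_le_mul haX hbY hb (by positivity)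
      refine h3.trans (le_of_eq ?_)
      rw [show ε * ((u:ℝ) + v + 2) = ε * (u + 1) + ε * (v + 1) by ring,
        Real.rpow_add (by norm_num)]
      ring
    have h3 := Real.rpow_le_rpow (mul_nonneg ha hb) h2 hγ0.le
    rw [Real.mul_rpow (x := (2:ℝ) ^ (ε * (u + v + 2))) (y := X * Y) (by positivity)
      (mul_nonneg hX hY), ← Real.rpow_mul (by norm_num)] at h3
    refine h3.trans (le_of_eq ?_)
    congr 2
    ring
  have h4 : Z ≤ Cn * (2:ℝ) ^ (η * i) * D * ((2:ℝ) ^ (ε * γ * (u + v + 2)) * (X * Y) ^ γ) := by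
    rw [hγ] at hZ
    exact hZ.trans (mul_le_mul_of_nonneg_left h1 (by positivity))
  have h5 : (2:ℝ) ^ (-(ε * u)) * (2:ℝ) ^ (-(ε * v)) * (2:ℝ) ^ (η * i) *
      (2:ℝ) ^ (ε * γ * (u + v + 2)) ≤
      (2:ℝ) ^ (2 * ε * γ + 114 * η) * (2:ℝ) ^ (-(η * i)) * (2:ℝ) ^ (-(c' * ((u:ℝ) + v))) := by
    simp only [← Real.rpow_add (show (0:ℝ) < 2 by norm_num)]
    apply Real.rpow_le_rpow_of_exponent_le (by norm_num)
    have hiR : (i:ℝ) ≤ 28 * (u + v) + 57 := by exact_mod_cast hi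
    have huv : (0:ℝ) ≤ (u:ℝ) + v := by positivity
    have h6 : η * i ≤ η * (28 * (u + v) + 57) := mul_le_mul_of_nonneg_left hiR hη.le
    have h7 : 56 * η * ((u:ℝ) + v) ≤ c' * (u + v) := mul_le_mul_of_nonneg_right hη2 huv
    have h8 : 2 * c' * ((u:ℝ) + v) = ε * (1 - γ) * (u + v) := by rw [hc']
    nlinarith [h6, h7, h8]
  have h9 : 0 ≤ D * (X * Y) ^ γ := by positivity
  calc w ≤ (3 ^ ε * (2:ℝ) ^ (-(ε * u))) * (3 ^ ε * (2:ℝ) ^ (-(ε * v))) * Z := hw
    _ ≤ (3 ^ ε * (2:ℝ) ^ (-(ε * u))) * (3 ^ ε * (2:ℝ) ^ (-(ε * v))) *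
        (Cn * (2:ℝ) ^ (η * i) * D * ((2:ℝ) ^ (ε * γ * (u + v + 2)) * (X * Y) ^ γ)) :=
        mul_le_mul_of_nonneg_left h4 (by positivity)
    _ = Cn * (3 ^ ε * 3 ^ ε) * (((2:ℝ) ^ (-(ε * u)) * (2:ℝ) ^ (-(ε * v)) * (2:ℝ) ^ (η * i) *
      (2:ℝ) ^ (ε * γ * (u + v + 2))) * (D * (X * Y) ^ γ)) := by ring
    _ ≤ Cn * (3 ^ ε * 3 ^ ε) * (((2:ℝ) ^ (2 * ε * γ + 114 * η) * (2:ℝ) ^ (-(η * i)) *
        (2:ℝ) ^ (-(c' * ((u:ℝ) + v)))) * (D * (X * Y) ^ γ)) :=
        mul_le_mul_of_nonneg_left (mul_le_mul_of_nonneg_right h5 h9) (by positivity)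
    _ = _ := by ring

theorem shal (h1 : PairG) (h2 : ShalSumG) (h3 : WtG) (h4 : DivSumStmt) : ShalG := by
  classical
  intro c ε hc hε
  set η : ℝ := min (1 / 9) (ε / 252) with hη
  have hη0 : 0 < η := by
    rw [hη]
    exact lt_min (by norm_num) (by positivity)
  have hη1 : η ≤ 1 / 9 := min_le_left _ _
  have hη2 : η ≤ ε / 252 := min_le_right _ _
  set γ : ℝ := (1 + η) / 2 with hγ
  have hγ1 : 1 / 2 < γ := by rw [hγ]; linarith
  have hγ2 : γ ≤ 5 / 9 := by rw [hγ]; linarith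
  have hγη : 2 * γ - 1 = η := by rw [hγ]; ring
  set c' : ℝ := ε * (1 - γ) / 2 with hc'
  have hc'0 : 0 < c' := by
    rw [hc']
    have : 0 < 1 - γ := by linarith
    positivity
  have hc'η : 56 * η ≤ c' := by
    rw [hc']
    have : ε * (4 / 9) ≤ ε * (1 - γ) := mul_le_mul_of_nonneg_left (by linarith) hε.le
    linarith
  have hc'e : 2 * c' = ε * (1 - γ) := by rw [hc']; ring
  obtain ⟨Cn, hCn, hn⟩ := h1 γ (1 / c) hγ1 hγ2
  obtain ⟨Cs, hCs, hs⟩ := h2 γ η c' hγ1 hγ2 hη0 hc'0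
  set K : ℝ := Cn * (3 ^ ε * 3 ^ ε * (2:ℝ) ^ (2 * ε * γ + 114 * η)) with hK
  have hK0 : 0 < K := by rw [hK]; positivity
  refine ⟨K * Cs, by positivity, ?_⟩
  intro ψ S lev hS hsum hlev
  obtain ⟨N, hN⟩ : ∃ N : ℕ, ∀ n ∈ S, lev n + 1 < N := by
    refine ⟨∑ n ∈ S, (lev n + 2), ?_⟩
    intro n hn
    have h1 : lev n + 2 ≤ ∑ n ∈ S, (lev n + 2) :=
      Finset.single_le_sum (f := fun n => lev n + 2) (fun _ _ => Nat.zero_le _) hn
    omega
  set w : ℕ → ℝ := fun n => wt ε (ψ n) with hw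
  set sg : ℕ → ℕ := fun n => lev n - Nat.log 2 n with hsg
  have hwt : ∀ n ∈ S, Nat.log 2 n + 3 ≤ lev n ∧ 0 < w n ∧ w n ≤ 1 ∧
      1 ≤ w n * (2:ℝ) ^ (ε * ((Nat.log 2 (sg n) : ℕ) + 1)) ∧
      w n ≤ 3 ^ ε * (2:ℝ) ^ (-(ε * (Nat.log 2 (sg n) : ℕ))) := by
    intro n hn
    obtain ⟨a1, a2, a3, a4⟩ := hS n hn
    obtain ⟨b1, b2, b3, b4, b5⟩ := h3 ε ψ (lev n) n hε.le a1 a3 a4 (hlev n hn)
    have hsg1 : 1 ≤ sg n := by
      simp only [hsg]
      omega
    obtain ⟨d1, d2⟩ := shal_w ε (w n) (sg n) hε.le hsg1 b4 b5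
    exact ⟨b1, b2, b3, d1, d2⟩
  set X : ℕ → ℝ := fun k => ∑ n ∈ S.filter (fun n => lev n = k), w n * ψ n with hX
  have hwψ0 : ∀ n ∈ S, 0 ≤ w n * ψ n := fun n hn =>
    mul_nonneg (hwt n hn).2.1.le (hS n hn).2.2.1.le
  have hX0 : ∀ k, 0 ≤ X k := by
    intro k
    apply Finset.sum_nonneg
    intro n hn
    exact hwψ0 n (Finset.mem_filter.mp hn).1
  have hXsum : ∑ k ∈ Finset.range N, X k ≤ 1 := by
    refine le_trans (le_of_eq ?_) hsum
    exact Finset.sum_fiberwise_of_maps_to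
      (fun n hn => Finset.mem_range.mpr (by have := hN n hn; omega)) _
  have hmain := hs N X hX0 hXsum
  have hrp : ∀ n ∈ S, rp n ≤ 1 / c := fun n hn => (h4 c n hc (hS n hn).1 (hS n hn).2.1).2
  -- the masses of the classes
  have hmass : ∀ k u : ℕ, ∑ n ∈ S.filter (fun n => lev n = k ∧ Nat.log 2 (sg n) = u), ψ n ≤
      (2:ℝ) ^ (ε * ((u:ℝ) + 1)) * X k := by
    intro k u
    simp only [hX]
    rw [Finset.mul_sum]
    calc ∑ n ∈ S.filter (fun n => lev n = k ∧ Nat.log 2 (sg n) = u), ψ n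
        ≤ ∑ n ∈ S.filter (fun n => lev n = k ∧ Nat.log 2 (sg n) = u),
          (2:ℝ) ^ (ε * ((u:ℝ) + 1)) * (w n * ψ n) := by
          apply Finset.sum_le_sum
          intro n hn
          rw [Finset.mem_filter] at hn
          obtain ⟨hnS, e1, e2⟩ := hn
          have hh := (hwt n hnS).2.2.2.1
          rw [e2] at hh
          have hψ := (hS n hnS).2.2.1.le
          calc ψ n = 1 * ψ n := (one_mul _).symm
            _ ≤ (w n * (2:ℝ) ^ (ε * ((u:ℝ) + 1))) * ψ n := mul_le_mul_of_nonneg_right hh hψ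
            _ = _ := by ring
      _ ≤ ∑ n ∈ S.filter (fun n => lev n = k),
          (2:ℝ) ^ (ε * ((u:ℝ) + 1)) * (w n * ψ n) := by
          apply Finset.sum_le_sum_of_subset_of_nonneg
          · intro n hn
            rw [Finset.mem_filter] at hn ⊢
            exact ⟨hn.1, hn.2.1⟩
          · intro n hn _
            exact mul_nonneg (by positivity) (hwψ0 n (Finset.mem_filter.mp hn).1)
  -- facts on a shallow pair
  have hfacts : ∀ z ∈ (S ×ˢ S).filter (fun z => ShalP lev z),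
      z.1 ∈ S ∧ z.2 ∈ S ∧ lev z.1 ≤ lev z.2 ∧
      Nat.clog 2 (z.1.lcm z.2) ≤ lev z.1 + 1 ∧
      lev z.1 + 1 - Nat.clog 2 (z.1.lcm z.2) ≤
        28 * (Nat.log 2 (sg z.1) + Nat.log 2 (sg z.2)) + 57 ∧
      2 ^ (Nat.clog 2 (z.1.lcm z.2)) < 2 * (z.1.lcm z.2) ∧
      z.1.lcm z.2 ≤ 2 ^ (Nat.clog 2 (z.1.lcm z.2)) := by
    intro z hz
    rw [Finset.mem_filter, Finset.mem_product] at hz
    obtain ⟨⟨hz1, hz2⟩, e1, e2, e3⟩ := hz
    have hx0 := (hS z.1 hz1).1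
    have hy0 := (hS z.2 hz2).1
    have hlcm : z.1.lcm z.2 = z.1 * (z.2 / z.1.gcd z.2) := by
      rw [Nat.lcm, Nat.mul_div_assoc _ (Nat.gcd_dvd_right _ _)]
    have hlcm0 : 0 < z.1.lcm z.2 := Nat.lcm_pos hx0 hy0
    have hup : z.1.lcm z.2 ≤ 2 ^ (Nat.clog 2 (z.1.lcm z.2)) := Nat.le_pow_clog (by norm_num) _
    have hlo : 2 ^ (Nat.clog 2 (z.1.lcm z.2)) < 2 * (z.1.lcm z.2) := by
      rcases Nat.eq_or_lt_of_le (show 1 ≤ z.1.lcm z.2 from hlcm0) with h1 | h1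
      · rw [← h1]
        simp
      · have := Nat.pow_pred_clog_lt_self (b := 2) (by norm_num) h1
        have hcl : 0 < Nat.clog 2 (z.1.lcm z.2) := Nat.clog_pos (by norm_num) h1
        obtain ⟨q, hq⟩ := Nat.exists_eq_succ_of_ne_zero hcl.ne'
        rw [hq] at this ⊢
        simp only [Nat.pred_succ] at this
        rw [pow_succ]
        omega
    have hcl : Nat.clog 2 (z.1.lcm z.2) ≤ lev z.1 + 1 := by
      apply (Nat.clog_le_iff_le_pow (by norm_num)).mpr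
      rw [hlcm]
      calc z.1 * (z.2 / z.1.gcd z.2) ≤
          2 ^ (Nat.log 2 z.1 + 1) * 2 ^ (Nat.clog 2 (z.2 / z.1.gcd z.2)) :=
            Nat.mul_le_mul (Nat.lt_pow_succ_log_self (by norm_num) z.1).le
              (Nat.le_pow_clog (by norm_num) _)
        _ = 2 ^ (Nat.log 2 z.1 + 1 + Nat.clog 2 (z.2 / z.1.gcd z.2)) := by rw [← pow_add]
        _ ≤ 2 ^ (lev z.1 + 1) := Nat.pow_le_pow_right (by norm_num) (by omega)
    refine ⟨hz1, hz2, e1, hcl, ?_, hlo, hup⟩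
    have hdp : dp lev z ≤ 2 ^ (28 * (Nat.log 2 (sg z.1) + Nat.log 2 (sg z.2)) + 56) :=
      shal_dp (sg z.1) (sg z.2)
    have h7 : 2 ^ (lev z.1 + 1 - Nat.clog 2 (z.1.lcm z.2)) * 2 ^ (Nat.clog 2 (z.1.lcm z.2)) =
        2 * 2 ^ (lev z.1) := by
      rw [← pow_add, ← pow_succ']
      congr 1
      omega
    have h8 : 2 ^ (lev z.1 + 1 - Nat.clog 2 (z.1.lcm z.2)) * (z.1.lcm z.2) ≤
        2 ^ (28 * (Nat.log 2 (sg z.1) + Nat.log 2 (sg z.2)) + 57) * (z.1.lcm z.2) := by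
      calc 2 ^ (lev z.1 + 1 - Nat.clog 2 (z.1.lcm z.2)) * (z.1.lcm z.2)
          ≤ 2 ^ (lev z.1 + 1 - Nat.clog 2 (z.1.lcm z.2)) * 2 ^ (Nat.clog 2 (z.1.lcm z.2)) :=
            Nat.mul_le_mul_left _ hup
        _ = 2 * 2 ^ (lev z.1) := h7
        _ ≤ 2 * (dp lev z * (z.1.lcm z.2)) := Nat.mul_le_mul_left _ e3
        _ ≤ 2 * (2 ^ (28 * (Nat.log 2 (sg z.1) + Nat.log 2 (sg z.2)) + 56) *
            (z.1.lcm z.2)) := Nat.mul_le_mul_left _ (Nat.mul_le_mul_right _ hdp)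
        _ = _ := by ring
    exact (Nat.pow_le_pow_iff_right (by norm_num)).mp (Nat.le_of_mul_le_mul_right h8 hlcm0)
  calc ∑ z ∈ (S ×ˢ S).filter (fun z => ShalP lev z), wt ε (ψ z.1) * wt ε (ψ z.2) *
        (ψ z.2 / ((z.2 / z.1.gcd z.2 : ℕ) : ℝ))
      ≤ ∑ k ∈ Finset.range N, ∑ l ∈ (Finset.range N).filter (fun l => k ≤ l),
        ∑ u ∈ Finset.range N, ∑ v ∈ Finset.range N, ∑ i ∈ Finset.range N,
        K * ((2:ℝ) ^ (-(η * i)) * (2:ℝ) ^ (-(c' * ((u:ℝ) + v))) *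
          (2:ℝ) ^ (-((1 - γ) * ((l:ℝ) - k))) * (X k * X l) ^ γ) := by
        apply sum_fiber_le _ _ (fun z => lev z.1)
        · intro z hz
          have := hN z.1 (hfacts z hz).1
          exact Finset.mem_range.mpr (by omega)
        intro k _
        apply sum_fiber_le _ _ (fun z => lev z.2)
        · intro z hz
          rw [Finset.mem_filter] at hz
          obtain ⟨hz, e1⟩ := hz
          obtain ⟨g1, g2, g4, -⟩ := hfacts z hz
          rw [Finset.mem_filter, ← e1]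
          have := hN z.2 g2
          exact ⟨Finset.mem_range.mpr (by omega), g4⟩
        intro l hl
        rw [Finset.mem_filter] at hl
        apply sum_fiber_le _ _ (fun z => Nat.log 2 (sg z.1))
        · intro z hz
          simp only [Finset.mem_filter, Finset.mem_product] at hz
          have h5 := hN z.1 hz.1.1.1.1
          have h6 : Nat.log 2 (sg z.1) ≤ sg z.1 := Nat.log_le_self _ _
          have h7 : sg z.1 ≤ lev z.1 := Nat.sub_le _ _
          exact Finset.mem_range.mpr (by omega)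
        intro u _
        apply sum_fiber_le _ _ (fun z => Nat.log 2 (sg z.2))
        · intro z hz
          simp only [Finset.mem_filter, Finset.mem_product] at hz
          have h5 := hN z.2 hz.1.1.1.1.2
          have h6 : Nat.log 2 (sg z.2) ≤ sg z.2 := Nat.log_le_self _ _
          have h7 : sg z.2 ≤ lev z.2 := Nat.sub_le _ _
          exact Finset.mem_range.mpr (by omega)
        intro v _
        apply sum_fiber_le _ _ (fun z => lev z.1 + 1 - Nat.clog 2 (z.1.lcm z.2))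
        · intro z hz
          simp only [Finset.mem_filter, Finset.mem_product] at hz
          have := hN z.1 hz.1.1.1.1.1.1
          exact Finset.mem_range.mpr (by omega)
        intro i _
        set G := ((((((S ×ˢ S).filter (fun z => ShalP lev z)).filter
          (fun z => lev z.1 = k)).filter (fun z => lev z.2 = l)).filter
          (fun z => Nat.log 2 (sg z.1) = u)).filter (fun z => Nat.log 2 (sg z.2) = v)).filter
          (fun z => lev z.1 + 1 - Nat.clog 2 (z.1.lcm z.2) = i) with hG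
        have hGmem : ∀ z ∈ G, z ∈ (S ×ˢ S).filter (fun z => ShalP lev z) ∧
            lev z.1 = k ∧ lev z.2 = l ∧ Nat.log 2 (sg z.1) = u ∧ Nat.log 2 (sg z.2) = v ∧
            lev z.1 + 1 - Nat.clog 2 (z.1.lcm z.2) = i := by
          intro z hz
          rw [hG, Finset.mem_filter, Finset.mem_filter, Finset.mem_filter, Finset.mem_filter,
            Finset.mem_filter] at hz
          exact ⟨hz.1.1.1.1.1, hz.1.1.1.1.2, hz.1.1.1.2, hz.1.1.2, hz.1.2, hz.2⟩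
        rcases G.eq_empty_or_nonempty with hGe | ⟨z0, hz0⟩
        · rw [hGe, Finset.sum_empty]
          have := hX0 k
          have := hX0 l
          positivity
        · obtain ⟨g0, e1, e2, e3, e4, e5⟩ := hGmem z0 hz0
          obtain ⟨g1, g2, g3, g4, g5, g6, g7⟩ := hfacts z0 g0
          have hii : i ≤ 28 * (u + v) + 57 := by
            rw [← e5, ← e3, ← e4]
            exact g5
          set V := S.filter (fun n => lev n = k ∧ Nat.log 2 (sg n) = u) with hV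
          set W := S.filter (fun n => lev n = l ∧ Nat.log 2 (sg n) = v) with hW
          have hb := hn ψ k l i V W
            (by
              intro v hv
              rw [hV, Finset.mem_filter] at hv
              obtain ⟨a1, a2, a3, a4⟩ := hS v hv.1
              have := hlev v hv.1
              rw [hv.2.1] at this
              exact ⟨a1, hrp v hv.1, a3, this⟩)
            (by
              intro v hv
              rw [hW, Finset.mem_filter] at hv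
              obtain ⟨a1, a2, a3, a4⟩ := hS v hv.1
              have := hlev v hv.1
              rw [hv.2.1] at this
              exact ⟨a1, hrp v hv.1, a3, this⟩)
          have hVS : ∀ n ∈ V, n ∈ S := fun n hn => (Finset.mem_filter.mp hn).1
          have hWS : ∀ n ∈ W, n ∈ S := fun n hn => (Finset.mem_filter.mp hn).1
          refine shal_num ε η γ (X k) (X l) (∑ v ∈ V, ψ v) (∑ v ∈ W, ψ v) c' Cn
            ((2:ℝ) ^ (-((1 - γ) * ((l:ℝ) - k)))) _ _ u v i hη0 hγη (by linarith) hc'η hc'e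
            hii (hX0 k) (hX0 l) (Finset.sum_nonneg (fun n hn => (hS n (hVS n hn)).2.2.1.le))
            (Finset.sum_nonneg (fun n hn => (hS n (hWS n hn)).2.2.1.le)) hCn (by positivity)
            ?_ hb (hmass k u) (hmass l v)
          -- the weights
          have hGsub : ∀ z ∈ G, z ∈ (V ×ˢ W).filter (fun z =>
              (2:ℝ) ^ ((k:ℝ) + 1 - i) / 2 < ((z.1.lcm z.2 : ℕ) : ℝ) ∧
              ((z.1.lcm z.2 : ℕ) : ℝ) ≤ (2:ℝ) ^ ((k:ℝ) + 1 - i)) := by
            intro z hz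
            obtain ⟨g0, e1, e2, e3, e4, e5⟩ := hGmem z hz
            obtain ⟨g1, g2, g3, g4, g5, g6, g7⟩ := hfacts z g0
            have hki : ((k:ℝ) + 1 - i) = ((Nat.clog 2 (z.1.lcm z.2) : ℕ) : ℝ) := by
              have : k + 1 = i + Nat.clog 2 (z.1.lcm z.2) := by omega
              have h9 : ((k + 1 : ℕ) : ℝ) = ((i + Nat.clog 2 (z.1.lcm z.2) : ℕ) : ℝ) := by
                rw [this]
              push_cast at h9
              linarith
            rw [Finset.mem_filter, Finset.mem_product]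
            refine ⟨⟨Finset.mem_filter.mpr ⟨g1, e1, e3⟩, Finset.mem_filter.mpr ⟨g2, e2, e4⟩⟩,
              ?_, ?_⟩
            · rw [hki, Real.rpow_natCast, div_lt_iff₀ (by norm_num)]
              have : (2:ℝ) ^ (Nat.clog 2 (z.1.lcm z.2)) < 2 * (z.1.lcm z.2 : ℕ) := by
                exact_mod_cast g6
              linarith
            · rw [hki, Real.rpow_natCast]
              exact_mod_cast g7
          calc ∑ z ∈ G, wt ε (ψ z.1) * wt ε (ψ z.2) * (ψ z.2 / ((z.2 / z.1.gcd z.2 : ℕ) : ℝ))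
              ≤ ∑ z ∈ G, (3 ^ ε * (2:ℝ) ^ (-(ε * u))) * (3 ^ ε * (2:ℝ) ^ (-(ε * v))) *
                (ψ z.2 / ((z.2 / z.1.gcd z.2 : ℕ) : ℝ)) := by
                apply Finset.sum_le_sum
                intro z hz
                obtain ⟨g0, e1, e2, e3, e4, e5⟩ := hGmem z hz
                obtain ⟨g1, g2, -⟩ := hfacts z g0
                have w1 := (hwt z.1 g1).2.2.2.2
                have w2 := (hwt z.2 g2).2.2.2.2
                rw [e3] at w1
                rw [e4] at w2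
                have hψ := (hS z.2 g2).2.2.1
                apply mul_le_mul_of_nonneg_right _ (by positivity)
                exact mul_le_mul w1 w2 (hwt z.2 g2).2.1.le (by positivity)
            _ = (3 ^ ε * (2:ℝ) ^ (-(ε * u))) * (3 ^ ε * (2:ℝ) ^ (-(ε * v))) *
                ∑ z ∈ G, (ψ z.2 / ((z.2 / z.1.gcd z.2 : ℕ) : ℝ)) := by
                rw [Finset.mul_sum]
            _ ≤ _ := by
                apply mul_le_mul_of_nonneg_left _ (by positivity)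
                apply Finset.sum_le_sum_of_subset_of_nonneg hGsub
                intro z hz _
                rw [Finset.mem_filter, Finset.mem_product] at hz
                have := (hS z.2 (hWS _ hz.1.2)).2.2.1
                positivity
    _ = K * ∑ k ∈ Finset.range N, ∑ l ∈ (Finset.range N).filter (fun l => k ≤ l),
        ∑ u ∈ Finset.range N, ∑ v ∈ Finset.range N, ∑ i ∈ Finset.range N,
        ((2:ℝ) ^ (-(η * i)) * (2:ℝ) ^ (-(c' * ((u:ℝ) + v))) *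
          (2:ℝ) ^ (-((1 - γ) * ((l:ℝ) - k))) * (X k * X l) ^ γ) := by
        simp only [Finset.mul_sum]
    _ ≤ K * Cs := mul_le_mul_of_nonneg_left hmain hK0.le

end Pool.Agent.MP_0863b8.G
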