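import Pool.Agent.Work.MP_0863b8_nt.Bd.B03
import Pool.Agent.Work.MP_0863b8_nt.Bd.B01

/-!
MP_0863b8_nt, item G7: the sum over the shallow part.
-/

namespace Pool.Agent.MP_0863b8.G

open MeasureTheory Filter

private theorem ss_amgm {x y γ : ℝ} (hg : 1/2 < γ) (hx : 0 ≤ x) (hy : 0 ≤ y) (hx1 : x ≤ 1)
    (hy1 : y ≤ 1) : (x * y) ^ γ ≤ (x + y) / 2 := by
  have h1 : (x * y) ^ γ ≤ (x * y) ^ ((1:ℝ)/2) :=
    Real.rpow_le_rpow_of_exponent_ge' (mul_nonneg hx hy) (mul_le_one₀ hx1 hy hy1) (by norm_num)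
      hg.le
  refine h1.trans ?_
  rw [← Real.sqrt_eq_rpow]
  apply Real.sqrt_le_iff.mpr
  constructor
  · positivity
  · nlinarith [sq_nonneg (x - y)]

private theorem ss_geom (c : ℝ) (hc : 0 < c) (N : ℕ) :
    ∑ i ∈ Finset.range N, (2:ℝ) ^ (-(c * (i:ℝ))) ≤ (1 - (2:ℝ) ^ (-c))⁻¹ := by
  have h1 : ∀ i ∈ Finset.range N, (2:ℝ) ^ (-(c * (i:ℝ))) = ((2:ℝ) ^ (-c)) ^ i := by
    intro i _
    exact cs_pow c _ i rfl
  rw [Finset.sum_congr rfl h1]
  exact cs_geom _ (cs_pos _).le (cs_lt_one _ hc) _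

private theorem ss_inv_pos (c : ℝ) (hc : 0 < c) : 0 < (1 - (2:ℝ) ^ (-c))⁻¹ :=
  inv_pos.mpr (by linarith [cs_lt_one c hc])

theorem shalSum : ShalSumG := by
  intro γ η c hγ hγ' hη hc
  have hγ1 : 0 < 1 - γ := by linarith
  set A : ℝ := (1 - (2:ℝ) ^ (-η))⁻¹ with hA
  set D : ℝ := (1 - (2:ℝ) ^ (-c))⁻¹ with hD
  set B : ℝ := (1 - (2:ℝ) ^ (-(1 - γ)))⁻¹ with hB
  have hApos : 0 < A := ss_inv_pos η hη
  have hDpos : 0 < D := ss_inv_pos c hc
  have hBpos : 0 < B := ss_inv_pos (1 - γ) hγ1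
  refine ⟨A * D * D * B, by positivity, ?_⟩
  intro N X hX hsum
  have hX1 : ∀ k ∈ Finset.range N, X k ≤ 1 := fun k hk =>
    (Finset.single_le_sum (fun i _ => hX i) hk).trans hsum
  have hl : ∀ k l : ℕ, k ≤ l → (2:ℝ) ^ (-((1 - γ) * ((l:ℝ) - k))) =
      ((2:ℝ) ^ (-(1 - γ))) ^ (l - k) := by
    intro k l hkl
    apply cs_pow
    rw [Nat.cast_sub hkl]
  have hrow : ∀ k, ∑ l ∈ (Finset.range N).filter (fun l => k ≤ l),
      (2:ℝ) ^ (-((1 - γ) * ((l:ℝ) - k))) ≤ B := by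
    intro k
    rw [Finset.sum_congr rfl (fun l hl' => hl k l (Finset.mem_filter.mp hl').2)]
    apply cs_geom_image _ (cs_pos _).le (cs_lt_one _ hγ1)
    intro a ha b hb hab
    rw [Finset.mem_coe, Finset.mem_filter] at ha hb
    simp only at hab
    omega
  have hcol : ∀ l, ∑ k ∈ (Finset.range N).filter (fun k => k ≤ l),
      (2:ℝ) ^ (-((1 - γ) * ((l:ℝ) - k))) ≤ B := by
    intro l
    rw [Finset.sum_congr rfl (fun k hk' => hl k l (Finset.mem_filter.mp hk').2)]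
    apply cs_geom_image _ (cs_pos _).le (cs_lt_one _ hγ1)
    intro a ha b hb hab
    rw [Finset.mem_coe, Finset.mem_filter] at ha hb
    omega
  calc ∑ k ∈ Finset.range N, ∑ l ∈ (Finset.range N).filter (fun l => k ≤ l),
      ∑ u ∈ Finset.range N, ∑ v ∈ Finset.range N, ∑ i ∈ Finset.range N,
        (2:ℝ) ^ (-(η * i)) * (2:ℝ) ^ (-(c * ((u:ℝ) + v))) *
          (2:ℝ) ^ (-((1 - γ) * ((l:ℝ) - k))) * (X k * X l) ^ γ
      ≤ ∑ k ∈ Finset.range N, ∑ l ∈ (Finset.range N).filter (fun l => k ≤ l),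
        (A * D * D / 2) * (X k * (2:ℝ) ^ (-((1 - γ) * ((l:ℝ) - k))) +
          X l * (2:ℝ) ^ (-((1 - γ) * ((l:ℝ) - k)))) := by
        apply Finset.sum_le_sum
        intro k hk
        apply Finset.sum_le_sum
        intro l hl'
        have hlN := (Finset.mem_filter.mp hl').1
        have h1 := ss_amgm hγ (hX k) (hX l) (hX1 k hk) (hX1 l hlN)
        have h2 : (0:ℝ) < (2:ℝ) ^ (-((1 - γ) * ((l:ℝ) - k))) :=
          Real.rpow_pos_of_pos (by norm_num) _
        have h3 : ∑ u ∈ Finset.range N, ∑ v ∈ Finset.range N, ∑ i ∈ Finset.range N,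
            (2:ℝ) ^ (-(η * i)) * (2:ℝ) ^ (-(c * ((u:ℝ) + v))) *
              (2:ℝ) ^ (-((1 - γ) * ((l:ℝ) - k))) * (X k * X l) ^ γ =
            (∑ u ∈ Finset.range N, (2:ℝ) ^ (-(c * (u:ℝ)))) *
            ((∑ v ∈ Finset.range N, (2:ℝ) ^ (-(c * (v:ℝ)))) *
            ((∑ i ∈ Finset.range N, (2:ℝ) ^ (-(η * i))) *
              ((2:ℝ) ^ (-((1 - γ) * ((l:ℝ) - k))) * (X k * X l) ^ γ))) := by
          rw [Finset.sum_mul]
          apply Finset.sum_congr rfl
          intro u _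
          rw [Finset.sum_mul, Finset.mul_sum]
          apply Finset.sum_congr rfl
          intro v _
          rw [Finset.sum_mul, Finset.mul_sum, Finset.mul_sum]
          apply Finset.sum_congr rfl
          intro i _
          have h4 : (2:ℝ) ^ (-(c * ((u:ℝ) + v))) =
              (2:ℝ) ^ (-(c * (u:ℝ))) * (2:ℝ) ^ (-(c * (v:ℝ))) := by
            rw [← Real.rpow_add (by norm_num)]
            congr 1
            ring
          rw [h4]
          ring
        rw [h3]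
        have h5 : 0 ≤ (2:ℝ) ^ (-((1 - γ) * ((l:ℝ) - k))) * (X k * X l) ^ γ :=
          mul_nonneg h2.le (Real.rpow_nonneg (mul_nonneg (hX k) (hX l)) _)
        have h6 : ∀ d : ℝ, 0 ≤ ∑ u ∈ Finset.range N, (2:ℝ) ^ (-(d * (u:ℝ))) := fun d =>
          Finset.sum_nonneg fun u _ => Real.rpow_nonneg (by norm_num) _
        calc (∑ u ∈ Finset.range N, (2:ℝ) ^ (-(c * (u:ℝ)))) *
            ((∑ v ∈ Finset.range N, (2:ℝ) ^ (-(c * (v:ℝ)))) *
            ((∑ i ∈ Finset.range N, (2:ℝ) ^ (-(η * i))) *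
              ((2:ℝ) ^ (-((1 - γ) * ((l:ℝ) - k))) * (X k * X l) ^ γ)))
            ≤ D * (D * (A * ((2:ℝ) ^ (-((1 - γ) * ((l:ℝ) - k))) * ((X k + X l) / 2)))) := by
              apply mul_le_mul (ss_geom c hc N) _ _ hDpos.le
              · apply mul_le_mul (ss_geom c hc N) _ _ hDpos.le
                · apply mul_le_mul (ss_geom η hη N) _ h5 hApos.le
                  exact mul_le_mul_of_nonneg_left h1 h2.le
                · exact mul_nonneg (h6 _) h5
              · exact mul_nonneg (h6 _) (mul_nonneg (h6 _) h5)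
          _ = _ := by ring
    _ = (A * D * D / 2) * (∑ k ∈ Finset.range N, X k *
          ∑ l ∈ (Finset.range N).filter (fun l => k ≤ l),
          (2:ℝ) ^ (-((1 - γ) * ((l:ℝ) - k))) +
        ∑ l ∈ Finset.range N, X l * ∑ k ∈ (Finset.range N).filter (fun k => k ≤ l),
          (2:ℝ) ^ (-((1 - γ) * ((l:ℝ) - k)))) := by
        have h3 : ∑ l ∈ Finset.range N, X l * ∑ k ∈ (Finset.range N).filter (fun k => k ≤ l),
          (2:ℝ) ^ (-((1 - γ) * ((l:ℝ) - k))) =
          ∑ k ∈ Finset.range N, ∑ l ∈ (Finset.range N).filter (fun l => k ≤ l),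
            X l * (2:ℝ) ^ (-((1 - γ) * ((l:ℝ) - k))) := by
          simp only [Finset.mul_sum, Finset.sum_filter, mul_ite, mul_zero]
          rw [Finset.sum_comm]
        rw [h3, ← Finset.sum_add_distrib, Finset.mul_sum]
        apply Finset.sum_congr rfl
        intro k _
        rw [Finset.mul_sum, ← Finset.sum_add_distrib, Finset.mul_sum]
    _ ≤ (A * D * D / 2) * (∑ k ∈ Finset.range N, X k * B + ∑ l ∈ Finset.range N, X l * B) := by
        apply mul_le_mul_of_nonneg_left _ (by positivity)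
        apply add_le_add
        · exact Finset.sum_le_sum fun k _ => mul_le_mul_of_nonneg_left (hrow k) (hX k)
        · exact Finset.sum_le_sum fun l _ => mul_le_mul_of_nonneg_left (hcol l) (hX l)
    _ = A * D * D * B * ∑ k ∈ Finset.range N, X k := by
        rw [← Finset.sum_mul]
        ring
    _ ≤ A * D * D * B * 1 := by
        apply mul_le_mul_of_nonneg_left hsum (by positivity)
    _ = A * D * D * B := mul_one _

end Pool.Agent.MP_0863b8.G
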