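import Pool.Agent.Work.MP_0863b8_nt.Bd.B03

/-!
MP_0863b8_nt, item G9: the weights in terms of the block.
-/

set_option autoImplicit false

namespace Pool.Agent.MP_0863b8.G

open MeasureTheory Filter
open F (ms en share lv)

/-- G9: the weights in terms of the block -/
theorem wtG : WtG := by
  intro ε ψ k n hε hn hψ hψ8 hlv
  obtain ⟨hl1, hl2⟩ := hlv
  set s := Nat.log 2 n with hs
  have hn0 : (0 : ℝ) < n := by exact_mod_cast hn
  have hn1 : (2 : ℝ) ^ s ≤ n := by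
    exact_mod_cast Nat.pow_log_le_self 2 hn.ne'
  have hn2 : (n : ℝ) < 2 ^ (s + 1) := by
    exact_mod_cast Nat.lt_pow_succ_log_self (by norm_num) n
  have h1 : (1 / 2 : ℝ) ^ (k + 1) * n < ψ n := by
    rwa [lt_div_iff₀ hn0] at hl1
  have h2 : ψ n ≤ (1 / 2 : ℝ) ^ k * n := by
    rwa [div_le_iff₀ hn0] at hl2
  have hk : s + 3 ≤ k := by
    by_contra hcon
    push Not at hcon
    have hcon' : k + 1 ≤ s + 3 := hcon
    have h3 : (1 / 2 : ℝ) ^ (s + 3) ≤ (1 / 2 : ℝ) ^ (k + 1) :=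
      pow_le_pow_of_le_one (by norm_num) (by norm_num) hcon'
    have h4 : (1 / 2 : ℝ) ^ (s + 3) * 2 ^ s ≤ (1 / 2 : ℝ) ^ (k + 1) * n :=
      mul_le_mul h3 hn1 (by positivity) (by positivity)
    have h5 : (1 / 2 : ℝ) ^ (s + 3) * 2 ^ s = 1 / 8 := by
      rw [pow_add, mul_right_comm, ← mul_pow]
      norm_num
    linarith
  obtain ⟨σ, hσ⟩ : ∃ σ, k = s + σ := ⟨k - s, by omega⟩
  have hσ3 : 3 ≤ σ := by omega
  have hks : k - s = σ := by omega
  have hlow : (1 / 2 : ℝ) ^ (σ + 1) < ψ n := by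
    refine lt_of_le_of_lt ?_ h1
    have h5 : (1 / 2 : ℝ) ^ (k + 1) * 2 ^ s = (1 / 2 : ℝ) ^ (σ + 1) := by
      rw [hσ, show s + σ + 1 = (σ + 1) + s by ring, pow_add _ (σ + 1) s, mul_assoc, ← mul_pow]
      norm_num
    rw [← h5]
    exact mul_le_mul_of_nonneg_left hn1 (by positivity)
  have hupp : ψ n < 2 * (1 / 2 : ℝ) ^ σ := by
    refine lt_of_le_of_lt h2 ?_
    have h5 : (1 / 2 : ℝ) ^ k * 2 ^ (s + 1) = 2 * (1 / 2 : ℝ) ^ σ := by
      rw [hσ, pow_add, pow_succ, show (1 / 2 : ℝ) ^ s * (1 / 2) ^ σ * (2 ^ s * 2) =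
        ((1 / 2 : ℝ) ^ s * 2 ^ s) * (2 * (1 / 2) ^ σ) by ring, ← mul_pow]
      norm_num
    rw [← h5]
    exact mul_lt_mul_of_pos_left hn2 (by positivity)
  have hlog2a : Real.log 2 < 0.6931471808 := Real.log_two_lt_d9
  have hlog2b : 0.6931471803 < Real.log 2 := Real.log_two_gt_d9
  have hlogψ : Real.log (1 / ψ n) = -Real.log (ψ n) := by
    rw [one_div, Real.log_inv]
  have hlogup : Real.log (1 / ψ n) ≤ (σ : ℝ) + 1 := by
    have h6 : Real.log ((1 / 2 : ℝ) ^ (σ + 1)) ≤ Real.log (ψ n) :=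
      Real.log_le_log (by positivity) hlow.le
    rw [Real.log_pow, one_div, Real.log_inv] at h6
    rw [hlogψ]
    push_cast at h6
    have h7 : (0 : ℝ) ≤ σ := Nat.cast_nonneg σ
    nlinarith
  have hlogdown : (σ : ℝ) / 3 ≤ Real.log (1 / ψ n) := by
    have h6 : Real.log (ψ n) ≤ Real.log (2 * (1 / 2 : ℝ) ^ σ) :=
      Real.log_le_log hψ hupp.le
    rw [Real.log_mul (by norm_num) (by positivity), Real.log_pow, one_div, Real.log_inv] at h6
    rw [hlogψ]
    have h7 : (3 : ℝ) ≤ σ := by exact_mod_cast hσ3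
    nlinarith
  have hlog1 : 1 ≤ Real.log (1 / ψ n) := by
    have h6 : Real.log (ψ n) ≤ Real.log (1 / 8) := Real.log_le_log hψ hψ8
    have h8 : Real.log (1 / 8) = -(3 * Real.log 2) := by
      rw [one_div, Real.log_inv, show (8 : ℝ) = 2 ^ 3 by norm_num, Real.log_pow]
      norm_num
    rw [hlogψ]
    rw [h8] at h6
    linarith
  have hσ0 : (0 : ℝ) < σ := by
    have h7 : (3 : ℝ) ≤ σ := by exact_mod_cast hσ3
    linarith
  rw [hks]
  refine ⟨hk, ?_, ?_, ?_, ?_⟩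
  · unfold wt
    exact Real.rpow_pos_of_pos (by linarith) _
  · unfold wt
    exact Real.rpow_le_one_of_one_le_of_nonpos hlog1 (by linarith)
  · unfold wt
    exact Real.rpow_le_rpow_of_nonpos (by linarith) hlogup (by linarith)
  · unfold wt
    have h9 : (Real.log (1 / ψ n)) ^ (-ε) ≤ ((σ : ℝ) / 3) ^ (-ε) :=
      Real.rpow_le_rpow_of_nonpos (by positivity) hlogdown (by linarith)
    refine h9.trans (le_of_eq ?_)
    rw [Real.div_rpow hσ0.le (by norm_num), Real.rpow_neg (by norm_num : (0 : ℝ) ≤ 3)]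
    rw [div_inv_eq_mul]
    ring

end Pool.Agent.MP_0863b8.G
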