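import Pool.Agent.Work.MP_0863b8_nt.F.Second
import Pool.Agent.Work.MP_0863b8_nt.F.Main
import Pool.Agent.Work.MP_0863b8_nt.F.Node
import Pool.Agent.Work.MP_0863b8_nt.Bd.B03
import Pool.Agent.Work.MP_0863b8_nt.F.Base
import Pool.Agent.Work.MP_0863b8_nt.F.Tree
import Pool.Agent.Work.MP_0863b8_nt.F.Rot
import Pool.Agent.Work.MP_0863b8_nt.F.BadDens
import Pool.Agent.Work.MP_0863b8_nt.F.DensQQ
import Pool.Agent.Work.MP_0863b8_nt.F.PairType
import Pool.Agent.Work.MP_0863b8_nt.F.Rps
import Pool.Agent.Work.MP_0863b8_nt.F.NewPair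
import Pool.Agent.Work.MP_0863b8_nt.F.EarlySum
import Pool.Agent.Work.MP_0863b8_nt.F.LateSum
import Pool.Agent.Work.MP_0863b8_nt.Bd.B05
import Pool.Agent.Work.MP_0863b8_nt.G.Pair
import Pool.Agent.Work.MP_0863b8_nt.G.ShalSum
import Pool.Agent.Work.MP_0863b8_nt.G.DeepSum
import Pool.Agent.Work.MP_0863b8_nt.G.Wt
import Pool.Agent.Work.MP_0863b8_nt.G.Deep
import Pool.Agent.Work.MP_0863b8_nt.G.Shal
import Pool.Agent.Work.MP_0863b8_nt.G.Second
import Pool.Agent.Work.MP_0863b8_nt.G.BC
import Pool.Agent.Work.MP_0863b8_nt.G.Blocks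
import Pool.Agent.Work.MP_0863b8_nt.G.Main
import Pool.Agent.Work.MP_0863b8_nt.G.Final

/-!
MP_0863b8_nt: assembly of the extra divergence theorem and its combination with the theorem for
quickly decaying functions.
-/

set_option autoImplicit false

namespace Pool.Agent.MP_0863b8.G

/-- the theorem for quickly decaying functions (folder `F`) -/
theorem mainF : F.MainF := by
  have hs : F.StepF := F.step F.node F.split
  have ht : F.TreeF := F.tree hs (F.fin hs F.base)
  have hd : F.DensQQ := F.densQQ (F.badDens F.slowRot (F.fastRot F.slowRot))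
  exact F.main (F.second (F.newPair ht hd F.pairType F.rpsStmt) F.earlySum F.lateSum)

/-- the weighted second moment -/
theorem secondG : SecondG := by
  have hs : StepG := step node
  have ht : TreeG := tree hs (fin hs base)
  exact second (deep (nonspec treeStmt) deepSum wtG divsum) (shal (pair ht) shalSum wtG divsum)
    wtG

/-- the extra divergence theorem -/
theorem mainGStmt : MainG := mainG secondG bcG blocksG

/-- the combined theorem -/
theorem finalStmt : FinalStmt := final mainGStmt mainF

end Pool.Agent.MP_0863b8.G
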