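import Pool.Agent.Work.MP_0863b8_nt.Bd.B03

set_option autoImplicit false

namespace Pool.Agent.MP_0863b8.G

open MeasureTheory Filter

private theorem bl_abs (p : ℕ → Prop) [DecidablePred p] (w : ℕ → ℝ) (hw0 : ∀ n, 0 ≤ w n)
    (hw8 : ∀ n, w n ≤ 1/2)
    (hdiv : ∀ M : ℝ, ∃ N : ℕ, M ≤ ∑ n ∈ (Finset.Icc 1 N).filter p, w n) (t : ℕ) :
    ∃ S : Finset ℕ, (∀ n ∈ S, t ≤ n ∧ 0 < n ∧ p n) ∧
      1 / 2 ≤ ∑ n ∈ S, w n ∧ ∑ n ∈ S, w n ≤ 1 := by
  classical
  have hex : ∃ N : ℕ, 1/2 ≤ ∑ n ∈ ((Finset.Icc 1 N).filter p).filter (fun n => t ≤ n), w n := by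
    obtain ⟨N, hN⟩ := hdiv (1/2 + ∑ n ∈ Finset.range t, w n)
    refine ⟨N, ?_⟩
    have h1 : ∑ n ∈ (Finset.Icc 1 N).filter p, w n =
        ∑ n ∈ ((Finset.Icc 1 N).filter p).filter (fun n => t ≤ n), w n +
        ∑ n ∈ ((Finset.Icc 1 N).filter p).filter (fun n => ¬ t ≤ n), w n := by
      rw [Finset.sum_filter_add_sum_filter_not]
    have h2 : ∑ n ∈ ((Finset.Icc 1 N).filter p).filter (fun n => ¬ t ≤ n), w n ≤
        ∑ n ∈ Finset.range t, w n := by
      apply Finset.sum_le_sum_of_subset_of_nonneg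
      · intro n hn
        rw [Finset.mem_filter] at hn
        rw [Finset.mem_range]
        omega
      · intro n _ _
        exact hw0 n
    linarith
  set N0 := Nat.find hex with hN0
  have hN0s := Nat.find_spec hex
  rw [← hN0] at hN0s
  refine ⟨((Finset.Icc 1 N0).filter p).filter (fun n => t ≤ n), ?_, hN0s, ?_⟩
  · intro n hn
    rw [Finset.mem_filter, Finset.mem_filter, Finset.mem_Icc] at hn
    exact ⟨hn.2, hn.1.1.1, hn.1.2⟩
  · have hN0pos : N0 ≠ 0 := by
      intro h
      rw [h] at hN0s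
      simp at hN0s
      norm_num at hN0s
    obtain ⟨N1, hN1⟩ := Nat.exists_eq_succ_of_ne_zero hN0pos
    have hlt : N1 < Nat.find hex := by omega
    have hmin := Nat.find_min hex hlt
    push Not at hmin
    have hsub : ∑ n ∈ ((Finset.Icc 1 N0).filter p).filter (fun n => t ≤ n), w n ≤
        ∑ n ∈ ((Finset.Icc 1 N1).filter p).filter (fun n => t ≤ n), w n + w N0 := by
      calc ∑ n ∈ ((Finset.Icc 1 N0).filter p).filter (fun n => t ≤ n), w n
          ≤ ∑ n ∈ insert N0 (((Finset.Icc 1 N1).filter p).filter (fun n => t ≤ n)), w n := by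
            apply Finset.sum_le_sum_of_subset_of_nonneg
            · intro n hn
              rw [Finset.mem_filter, Finset.mem_filter, Finset.mem_Icc] at hn
              rw [Finset.mem_insert, Finset.mem_filter, Finset.mem_filter, Finset.mem_Icc]
              by_cases h : n = N0
              · exact Or.inl h
              · right
                exact ⟨⟨⟨hn.1.1.1, by omega⟩, hn.1.2⟩, hn.2⟩
            · intro n _ _
              exact hw0 n
        _ = w N0 + ∑ n ∈ ((Finset.Icc 1 N1).filter p).filter (fun n => t ≤ n), w n := by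
            apply Finset.sum_insert
            rw [Finset.mem_filter, Finset.mem_filter, Finset.mem_Icc]
            omega
        _ = _ := by ring
    have := hw8 N0
    linarith

private theorem bl_div (q : ℕ → Prop) [DecidablePred q] (f w : ℕ → ℝ) (κ : ℝ) (hκ : 0 < κ)
    (hf : ∀ n, 0 ≤ f n) (hw : ∀ n, 0 ≤ w n) (h : ∀ n, f n ≤ w n ∨ κ ≤ w n)
    (hdiv : ∀ M : ℝ, ∃ N : ℕ, M ≤ ∑ n ∈ (Finset.Icc 1 N).filter q, f n) :
    ∀ M : ℝ, ∃ N : ℕ, M ≤ ∑ n ∈ (Finset.Icc 1 N).filter q, w n := by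
  classical
  by_contra hcon
  push Not at hcon
  obtain ⟨M, hM⟩ := hcon
  have hfin : {n : ℕ | 1 ≤ n ∧ q n ∧ κ ≤ w n}.Finite := by
    by_contra hinf
    have hinf' : {n : ℕ | 1 ≤ n ∧ q n ∧ κ ≤ w n}.Infinite := hinf
    obtain ⟨K, hK1, hK2⟩ := hinf'.exists_subset_card_eq (⌈M / κ⌉₊ + 1)
    obtain ⟨N, hN⟩ : ∃ N : ℕ, ∀ n ∈ K, n ≤ N :=
      ⟨K.sup id, fun n hn => Finset.le_sup (f := id) hn⟩
    have h1 : ∑ n ∈ K, w n ≤ ∑ n ∈ (Finset.Icc 1 N).filter q, w n := by
      apply Finset.sum_le_sum_of_subset_of_nonneg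
      · intro n hn
        have := hK1 hn
        rw [Finset.mem_filter, Finset.mem_Icc]
        exact ⟨⟨this.1, hN n hn⟩, this.2.1⟩
      · intro n _ _
        exact hw n
    have h2 : (K.card : ℝ) * κ ≤ ∑ n ∈ K, w n := by
      rw [← nsmul_eq_mul, ← Finset.sum_const]
      exact Finset.sum_le_sum fun n hn => (hK1 hn).2.2
    rw [hK2] at h2
    push_cast at h2
    have h3 := Nat.le_ceil (M / κ)
    have h4 := hM N
    rw [div_le_iff₀ hκ] at h3
    nlinarith
  obtain ⟨N, hN⟩ := hdiv (M + ∑ n ∈ hfin.toFinset, f n)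
  have h1 : ∑ n ∈ (Finset.Icc 1 N).filter q, f n ≤
      ∑ n ∈ (Finset.Icc 1 N).filter q, w n + ∑ n ∈ hfin.toFinset, f n := by
    calc ∑ n ∈ (Finset.Icc 1 N).filter q, f n
        ≤ ∑ n ∈ (Finset.Icc 1 N).filter q, (w n + if n ∈ hfin.toFinset then f n else 0) := by
          apply Finset.sum_le_sum
          intro n hn
          rw [Finset.mem_filter, Finset.mem_Icc] at hn
          by_cases h8 : κ ≤ w n
          · have : n ∈ hfin.toFinset := by
              rw [Set.Finite.mem_toFinset]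
              exact ⟨hn.1.1, hn.2, h8⟩
            rw [if_pos this]
            linarith [hw n]
          · have : n ∉ hfin.toFinset := by
              rw [Set.Finite.mem_toFinset]
              intro h
              exact h8 h.2.2
            rw [if_neg this]
            have := (h n).resolve_right h8
            linarith
      _ = ∑ n ∈ (Finset.Icc 1 N).filter q, w n +
          ∑ n ∈ (Finset.Icc 1 N).filter q, (if n ∈ hfin.toFinset then f n else 0) :=
          Finset.sum_add_distrib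
      _ ≤ ∑ n ∈ (Finset.Icc 1 N).filter q, w n + ∑ n ∈ hfin.toFinset, f n := by
          rw [← Finset.sum_filter]
          have : ∑ n ∈ ((Finset.Icc 1 N).filter q).filter (fun n => n ∈ hfin.toFinset), f n ≤
              ∑ n ∈ hfin.toFinset, f n := by
            apply Finset.sum_le_sum_of_subset_of_nonneg
            · intro n hn
              rw [Finset.mem_filter] at hn
              exact hn.2
            · intro n _ _
              exact hf n
          linarith
  have := hM N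
  linarith

private theorem bl_log8 : 1 ≤ Real.log 8 := by
  have h : Real.log 8 = 3 * Real.log 2 := by
    rw [show (8:ℝ) = 2 ^ 3 by norm_num, Real.log_pow]
    norm_num
  rw [h]
  linarith [Real.log_two_gt_d9]

theorem blocksG : BlocksG := by
  intro Φ ε c hε h0 hdiv t
  classical
  set w : ℕ → ℝ := fun n => wt ε (min (Φ n) (1/8)) * min (Φ n) (1/8) with hw
  have hψ0 : ∀ n, 0 ≤ min (Φ n) (1/8) := fun n => le_min (h0 n) (by norm_num)
  have hψ8 : ∀ n, min (Φ n) (1/8) ≤ 1/8 := fun n => min_le_right _ _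
  have hlog : ∀ p : ℝ, 0 < p → p ≤ 1/8 → 1 ≤ Real.log (1 / p) := by
    intro p hp hp8
    refine bl_log8.trans (Real.log_le_log (by norm_num) ?_)
    rw [le_div_iff₀ hp]
    linarith
  have hwt : ∀ n, 0 < Φ n → 0 < wt ε (min (Φ n) (1/8)) ∧ wt ε (min (Φ n) (1/8)) ≤ 1 := by
    intro n hn
    have h1 : 0 < min (Φ n) (1/8) := lt_min hn (by norm_num)
    have h2 := hlog _ h1 (hψ8 n)
    refine ⟨Real.rpow_pos_of_pos (by linarith) _, ?_⟩
    exact Real.rpow_le_one_of_one_le_of_nonpos h2 (by linarith)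
  have hzero : ∀ n, Φ n = 0 → w n = 0 := by
    intro n hn
    simp only [hw]
    rw [hn, min_eq_left (by norm_num : (0:ℝ) ≤ 1/8), mul_zero]
  have hw0 : ∀ n, 0 ≤ w n := by
    intro n
    rcases (h0 n).eq_or_lt with h | h
    · rw [hzero n h.symm]
    · exact mul_nonneg (hwt n h).1.le (hψ0 n)
  have hw8 : ∀ n, w n ≤ 1/2 := by
    intro n
    rcases (h0 n).eq_or_lt with h | h
    · rw [hzero n h.symm]
      norm_num
    · have h1 := hwt n h
      have : w n ≤ 1 * min (Φ n) (1/8) := mul_le_mul_of_nonneg_right h1.2 (hψ0 n)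
      linarith [hψ8 n]
  have hκ : 0 < (Real.log 8) ^ (-ε) * (1/8) := by
    have := Real.rpow_pos_of_pos (lt_of_lt_of_le one_pos bl_log8) (-ε)
    positivity
  have hf0 : ∀ n, 0 ≤ Φ n * (Real.log (2 + 1 / Φ n)) ^ (-ε) := by
    intro n
    refine mul_nonneg (h0 n) (Real.rpow_nonneg (Real.log_nonneg ?_) _)
    have : 0 ≤ 1 / Φ n := one_div_nonneg.2 (h0 n)
    linarith
  have hcmp : ∀ n, Φ n * (Real.log (2 + 1 / Φ n)) ^ (-ε) ≤ w n ∨
      (Real.log 8) ^ (-ε) * (1/8) ≤ w n := by
    intro n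
    rcases (h0 n).eq_or_lt with h | h
    · left
      rw [← h, zero_mul]
      exact hw0 n
    · rcases le_or_gt (Φ n) (1/8) with h8 | h8
      · left
        simp only [hw]
        rw [min_eq_left h8, mul_comm (wt ε (Φ n))]
        refine mul_le_mul_of_nonneg_left ?_ (h0 n)
        unfold wt
        refine Real.rpow_le_rpow_of_nonpos (by linarith [hlog _ h h8]) ?_ (by linarith)
        refine Real.log_le_log (by positivity) ?_
        linarith
      · right
        simp only [hw]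
        rw [min_eq_right h8.le]
        unfold wt
        norm_num
  have hdivw := bl_div (fun n => c ≤ (Nat.totient n : ℝ) / n) _ w _ hκ hf0 hw0 hcmp hdiv
  have hdivp : ∀ M : ℝ, ∃ N : ℕ, M ≤ ∑ n ∈ (Finset.Icc 1 N).filter
      (fun n => c ≤ (Nat.totient n : ℝ) / n ∧ 0 < Φ n), w n := by
    intro M
    obtain ⟨N, hN⟩ := hdivw M
    refine ⟨N, hN.trans (le_of_eq ?_)⟩
    symm
    apply Finset.sum_subset
    · intro n hn
      rw [Finset.mem_filter] at hn ⊢
      exact ⟨hn.1, hn.2.1⟩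
    · intro n hn hn'
      rw [Finset.mem_filter] at hn hn'
      apply hzero
      by_contra hne
      exact hn' ⟨hn.1, hn.2, lt_of_le_of_ne (h0 n) (Ne.symm hne)⟩
  obtain ⟨S, hS1, hS2, hS3⟩ := bl_abs _ w hw0 hw8 hdivp t
  exact ⟨S, hS1, hS2, hS3⟩

end Pool.Agent.MP_0863b8.G
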